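import Pool.Agent.Lib.MP_9701dc_gt.Assembly

set_option autoImplicit false
set_option linter.unusedSectionVars false

/-!
# The Hodge identity for the complete complex

Upper plus lower Laplacian of the complete complex on `n` vertices is `n` times the identity.
-/

namespace Pool.Agent.Lib.MP_9701dc_gt.GR

open Finset Pool.Agent.Lib.MP_9701dc_gt

variable {n : ℕ}

theorem inc_eq_of_erase {σ τ : Finset (Fin n)} {y : Fin n} (hy : y ∈ τ) (h : τ.erase y = σ) :
    inc σ τ = sg y σ := by
  have h1 : τ = insert y σ := by rw [← h, insert_erase hy]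
  rw [h1]
  refine inc_insert ?_
  rw [← h]
  exact notMem_erase _ _

theorem sum_up (σ σ' : Finset (Fin n)) :
    ∑ τ : Finset (Fin n), inc σ τ * inc σ' τ =
      ∑ x ∈ univ.filter (fun x => x ∉ σ), sg x σ * inc σ' (insert x σ) := by
  have h1 : ∑ τ : Finset (Fin n), inc σ τ * inc σ' τ =
      ∑ τ ∈ (univ.filter fun x => x ∉ σ).image (fun x => insert x σ), inc σ τ * inc σ' τ := by
    symm
    refine sum_subset (subset_univ _) fun τ _ hτ => ?_
    by_contra hc
    obtain ⟨x, hx, hx'⟩ := inc_ne_zero (left_ne_zero_of_mul hc)
    exact hτ (mem_image.mpr ⟨x, mem_filter.mpr ⟨mem_univ _, hx⟩, hx'.symm⟩)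
  rw [h1, sum_image]
  · refine sum_congr rfl fun x hx => ?_
    rw [inc_insert (mem_filter.mp hx).2]
  · intro x hx y hy hxy
    have hx' := (mem_filter.mp hx).2
    by_contra hne
    have : x ∈ insert y σ := by
      have hxy' : insert x σ = insert y σ := hxy
      rw [← hxy']; exact mem_insert_self _ _
    rw [mem_insert] at this
    rcases this with h | h
    · exact hne h
    · exact hx' h

theorem sum_down (σ σ' : Finset (Fin n)) :
    ∑ ρ : Finset (Fin n), inc ρ σ * inc ρ σ' =
      ∑ y ∈ σ, sg y (σ.erase y) * inc (σ.erase y) σ' := by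
  have h1 : ∑ ρ : Finset (Fin n), inc ρ σ * inc ρ σ' =
      ∑ ρ ∈ σ.image (fun y => σ.erase y), inc ρ σ * inc ρ σ' := by
    symm
    refine sum_subset (subset_univ _) fun ρ _ hρ => ?_
    by_contra hc
    obtain ⟨x, hx, hx'⟩ := inc_ne_zero (left_ne_zero_of_mul hc)
    refine hρ (mem_image.mpr ⟨x, ?_, ?_⟩)
    · rw [hx']; exact mem_insert_self _ _
    · rw [hx', erase_insert hx]
  rw [h1, sum_image]
  · refine sum_congr rfl fun y hy => ?_
    rw [inc_eq_of_erase hy rfl]
  · intro x hx y hy hxy
    by_contra hne
    have h2 : x ∈ σ.erase y := mem_erase.mpr ⟨hne, hx⟩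
    have hxy' : σ.erase x = σ.erase y := hxy
    rw [← hxy'] at h2
    exact notMem_erase _ _ h2

/-- **Hodge identity.** -/
theorem hodge (σ σ' : Finset (Fin n)) :
    ∑ τ : Finset (Fin n), inc σ τ * inc σ' τ + ∑ ρ : Finset (Fin n), inc ρ σ * inc ρ σ' =
      if σ = σ' then (n : ℤ) else 0 := by
  rw [sum_up, sum_down]
  split_ifs with h
  · subst h
    have h1 : ∑ x ∈ univ.filter (fun x => x ∉ σ), sg x σ * inc σ (insert x σ) =
        ((univ.filter fun x => x ∉ σ).card : ℤ) := by
      rw [card_eq_sum_ones, Nat.cast_sum]
      refine sum_congr rfl fun x hx => ?_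
      rw [inc_insert (mem_filter.mp hx).2, sg_sq]
      norm_num
    have h2 : ∑ y ∈ σ, sg y (σ.erase y) * inc (σ.erase y) σ = (σ.card : ℤ) := by
      rw [card_eq_sum_ones, Nat.cast_sum]
      refine sum_congr rfl fun y hy => ?_
      rw [inc_eq_of_erase hy rfl, sg_sq]
      norm_num
    rw [h1, h2]
    have h3 : (univ.filter fun x => x ∉ σ).card + σ.card = n := by
      have h4 : univ.filter (fun x => x ∉ σ) = σᶜ := by
        ext x; simp
      rw [h4, card_compl, Fintype.card_fin]
      have := card_le_univ σ
      rw [Fintype.card_fin] at this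
      omega
    exact_mod_cast h3
  · by_cases hex : ∃ x y, x ∉ σ ∧ y ∈ σ ∧ σ' = insert x (σ.erase y)
    · obtain ⟨x, y, hx, hy, hσ'⟩ := hex
      have hxy : x ≠ y := fun he => hx (he ▸ hy)
      have hyσ' : y ∉ σ' := by
        rw [hσ', mem_insert, not_or]
        exact ⟨hxy.symm, notMem_erase _ _⟩
      have hxe : x ∉ σ.erase y := fun he => hx (mem_of_mem_erase he)
      have h1 : ∑ z ∈ univ.filter (fun z => z ∉ σ), sg z σ * inc σ' (insert z σ) =
          sg x σ * sg y σ' := by
        rw [sum_eq_single x]
        · congr 1
          have : insert x σ = insert y σ' := by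
            rw [hσ', insert_comm, insert_erase hy]
          rw [this, inc_insert hyσ']
        · intro z hz hzx
          have hz' := (mem_filter.mp hz).2
          have : inc σ' (insert z σ) = 0 := by
            by_contra hc
            obtain ⟨w, hw, hw'⟩ := inc_ne_zero hc
            have h2 : x ∈ insert z σ := by
              rw [hw', hσ']
              exact mem_insert_of_mem (mem_insert_self _ _)
            rw [mem_insert] at h2
            rcases h2 with h2 | h2
            · exact hzx h2.symm
            · exact hx h2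
          rw [this, mul_zero]
        · intro hn
          exfalso
          apply hn
          simp [hx]
      have h2 : ∑ z ∈ σ, sg z (σ.erase z) * inc (σ.erase z) σ' =
          sg y (σ.erase y) * sg x (σ.erase y) := by
        rw [sum_eq_single y]
        · congr 1
          rw [hσ', inc_insert hxe]
        · intro z hz hzy
          have : inc (σ.erase z) σ' = 0 := by
            by_contra hc
            obtain ⟨w, hw, hw'⟩ := inc_ne_zero hc
            have h3 : y ∈ σ' := by
              rw [hw']
              exact mem_insert_of_mem (mem_erase.mpr ⟨hzy.symm, hy⟩)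
            exact hyσ' h3
          rw [this, mul_zero]
        · intro hn
          exact absurd hy hn
      rw [h1, h2]
      have h3 : sg x σ = (if y < x then -1 else 1) * sg x (σ.erase y) := by
        conv_lhs => rw [← insert_erase hy]
        exact sg_insert (notMem_erase _ _)
      have h4 : sg y σ' = (if x < y then -1 else 1) * sg y (σ.erase y) := by
        rw [hσ']
        exact sg_insert hxe
      rw [h3, h4]
      rcases lt_or_gt_of_ne hxy with hlt | hlt
      · rw [if_neg (not_lt_of_gt hlt), if_pos hlt]; ring
      · rw [if_pos hlt, if_neg (not_lt_of_gt hlt)]; ring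
    · have h1 : ∑ z ∈ univ.filter (fun z => z ∉ σ), sg z σ * inc σ' (insert z σ) = 0 := by
        refine sum_eq_zero fun z hz => ?_
        have hz' := (mem_filter.mp hz).2
        have : inc σ' (insert z σ) = 0 := by
          by_contra hc
          obtain ⟨w, hw, hw'⟩ := inc_ne_zero hc
          have hwz : w ≠ z := by
            intro he
            apply h
            have h3 : (insert z σ).erase z = (insert w σ').erase w := by rw [hw', he]
            rwa [erase_insert hz', erase_insert hw] at h3
          have hwσ : w ∈ σ := by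
            have h3 : w ∈ insert z σ := by rw [hw']; exact mem_insert_self _ _
            rw [mem_insert] at h3
            exact h3.resolve_left hwz
          apply hex
          refine ⟨z, w, hz', hwσ, ?_⟩
          have h3 : σ' = (insert z σ).erase w := by rw [hw', erase_insert hw]
          rw [h3, erase_insert_of_ne hwz.symm]
        rw [this, mul_zero]
      have h2 : ∑ z ∈ σ, sg z (σ.erase z) * inc (σ.erase z) σ' = 0 := by
        refine sum_eq_zero fun z hz => ?_
        have : inc (σ.erase z) σ' = 0 := by
          by_contra hc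
          obtain ⟨w, hw, hw'⟩ := inc_ne_zero hc
          apply hex
          refine ⟨w, z, ?_, hz, hw'⟩
          intro hwσ
          have hwz : w = z := by
            by_contra hne
            exact hw (mem_erase.mpr ⟨hne, hwσ⟩)
          apply h
          rw [hw', hwz, insert_erase hz]
        rw [this, mul_zero]
      rw [h1, h2, add_zero]

/-- `∂∂ = 0` -/
theorem inc_comp (ρ τ : Finset (Fin n)) : ∑ σ : Finset (Fin n), inc ρ σ * inc σ τ = 0 := by
  by_contra hne
  obtain ⟨σ, _, hσ⟩ := exists_ne_zero_of_sum_ne_zero hne
  obtain ⟨a, ha, hae⟩ := inc_ne_zero (left_ne_zero_of_mul hσ)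
  obtain ⟨b, hb, hbe⟩ := inc_ne_zero (right_ne_zero_of_mul hσ)
  subst hae
  have hbρ : b ∉ ρ := fun h => hb (mem_insert_of_mem h)
  have hab : a ≠ b := by
    rintro rfl
    exact hb (mem_insert_self _ _)
  apply hne
  have h1 : ∑ σ : Finset (Fin n), inc ρ σ * inc σ τ =
      ∑ σ ∈ ({insert a ρ, insert b ρ} : Finset (Finset (Fin n))), inc ρ σ * inc σ τ := by
    symm
    refine sum_subset (subset_univ _) fun σ _ hσ' => ?_
    by_contra hc
    obtain ⟨a', ha', hae'⟩ := inc_ne_zero (left_ne_zero_of_mul hc)
    obtain ⟨b', hb', hbe'⟩ := inc_ne_zero (right_ne_zero_of_mul hc)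
    apply hσ'
    have : a' ∈ insert b (insert a ρ) := by
      rw [← hbe, hbe', hae']
      exact mem_insert_of_mem (mem_insert_self _ _)
    rw [mem_insert, mem_insert] at this
    rw [mem_insert, mem_singleton, hae']
    rcases this with h | h | h
    · right; rw [h]
    · left; rw [h]
    · exact absurd h ha'
  have hne' : (insert a ρ : Finset (Fin n)) ≠ insert b ρ := by
    intro h
    have : a ∈ insert b ρ := by rw [← h]; exact mem_insert_self _ _
    rw [mem_insert] at this
    rcases this with h | h
    · exact hab h
    · exact ha h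
  rw [h1, sum_pair hne', inc_insert ha, inc_insert hbρ]
  have e1 : inc (insert a ρ) τ = sg b (insert a ρ) := by rw [hbe]; exact inc_insert hb
  have e2 : inc (insert b ρ) τ = sg a (insert b ρ) := by
    rw [hbe, insert_comm]
    exact inc_insert (by simp [hab, ha])
  rw [e1, e2, sg_insert ha, sg_insert hbρ]
  rcases lt_or_gt_of_ne hab with h | h
  · rw [if_pos h, if_neg (not_lt_of_gt h)]; ring
  · rw [if_neg (not_lt_of_gt h), if_pos h]; ring

end Pool.Agent.Lib.MP_9701dc_gt.GR
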