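import Mathlib

set_option autoImplicit false

/-!
# Analysis for the lower bound of the growth constant
-/

namespace Pool.Agent.Lib.MP_9701dc_gt.GR

open Filter Topology

theorem log_factorial_ge (N : ℕ) (hN : 0 < N) :
    (N : ℝ) * Real.log N - N ≤ Real.log (N.factorial : ℝ) := by
  have h1 : (N : ℝ) ^ N / (N.factorial : ℝ) ≤ Real.exp N :=
    Real.pow_div_factorial_le_exp (N : ℝ) (Nat.cast_nonneg N) N
  have hN' : (0 : ℝ) < N := by exact_mod_cast hN
  have hf : (0 : ℝ) < (N.factorial : ℝ) := by positivity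
  have h2 := Real.log_le_log (by positivity) h1
  rw [Real.log_exp, Real.log_div (by positivity) hf.ne', Real.log_pow] at h2
  linarith

/-- the bound of the minor, simplified -/
theorem simplify {n d N K : ℕ} (hd : 1 ≤ d) (hn : d + 1 ≤ n) (hN : N = (n - 1).choose d)
    (hK : K = n.choose (d + 1)) {x : ℝ}
    (h : Real.log (N.factorial : ℝ) + (N : ℝ) * ((n : ℝ) - d - 1) / ((n : ℝ) - 1) * Real.log n ≤
      (N : ℝ) * Real.log K + x) :
    (N : ℝ) * (Real.log (d + 1) - 1 - d * Real.log n / ((n : ℝ) - 1)) ≤ x := by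
  have hNpos : 0 < N := by rw [hN]; exact Nat.choose_pos (by omega)
  have hKpos : 0 < K := by rw [hK]; exact Nat.choose_pos hn
  have hrel : K * (d + 1) = n * N := by
    rw [hN, hK]
    obtain ⟨m, rfl⟩ : ∃ m, n = m + 1 := ⟨n - 1, by omega⟩
    rw [Nat.add_sub_cancel]
    exact (Nat.add_one_mul_choose_eq m d).symm
  have h1 := log_factorial_ge N hNpos
  have hNr : (0 : ℝ) < N := by exact_mod_cast hNpos
  have hKr : (0 : ℝ) < K := by exact_mod_cast hKpos
  have hnr : (0 : ℝ) < n := by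
    have : 0 < n := by omega
    exact_mod_cast this
  have hdr : (0 : ℝ) < (d : ℝ) + 1 := by positivity
  have hlog : Real.log K + Real.log ((d : ℝ) + 1) = Real.log n + Real.log N := by
    rw [← Real.log_mul hKr.ne' hdr.ne', ← Real.log_mul hnr.ne' hNr.ne']
    congr 1
    exact_mod_cast hrel
  have hn1 : (0 : ℝ) < (n : ℝ) - 1 := by
    have : 1 < n := by omega
    have h2 : (1 : ℝ) < n := by exact_mod_cast this
    linarith
  have e1 : (N : ℝ) * ((n : ℝ) - d - 1) / ((n : ℝ) - 1) * Real.log n =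
      (N : ℝ) * (Real.log n - d * Real.log n / ((n : ℝ) - 1)) := by
    field_simp
    ring
  rw [e1] at h
  have e2 : (N : ℝ) * (Real.log (d + 1) - 1 - d * Real.log n / ((n : ℝ) - 1)) =
      (N : ℝ) * Real.log N - N + (N : ℝ) * (Real.log n - d * Real.log n / ((n : ℝ) - 1)) -
        (N : ℝ) * Real.log K := by
    have : Real.log ((d : ℝ) + 1) = Real.log n + Real.log N - Real.log K := by linarith
    rw [this]
    ring
  rw [e2]
  linarith

theorem lower_limit {d : ℕ} (hd : 2 ≤ d) {t : ℕ → ℝ} {lam : ℝ}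
    (hlam : ∀ n : ℕ, t n ≤ lam * (n : ℝ) ^ d)
    (hlow : ∀ n : ℕ, d + 1 ≤ n → ((n - 1).choose d : ℝ) *
      (Real.log (d + 1) - 1 - d * Real.log n / ((n : ℝ) - 1)) ≤ 2 * t n) :
    (Real.log (d + 1) - 1) / (2 * d.factorial) ≤ lam := by
  have hlog3 : 1 < Real.log ((d : ℝ) + 1) := by
    rw [Real.lt_log_iff_exp_lt (by positivity)]
    have h1 : (2 : ℝ) ≤ d := by exact_mod_cast hd
    have := Real.exp_one_lt_d9
    linarith
  -- limits
  have hA : Tendsto (fun n : ℕ => ((n : ℝ) - d) / n) atTop (𝓝 1) := by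
    have h1 : Tendsto (fun n : ℕ => (1 : ℝ) - d * (1 / (n : ℝ))) atTop (𝓝 (1 - d * 0)) :=
      tendsto_const_nhds.sub ((tendsto_one_div_atTop_nhds_zero_nat).const_mul _)
    rw [mul_zero, sub_zero] at h1
    refine h1.congr' ?_
    filter_upwards [eventually_ge_atTop 1] with n hn
    have : (0 : ℝ) < n := by exact_mod_cast hn
    field_simp
  have hB : Tendsto (fun n : ℕ => (d : ℝ) * Real.log n / ((n : ℝ) - 1)) atTop (𝓝 0) := by
    have h1 : Tendsto (fun x : ℝ => Real.log x / x) atTop (𝓝 0) := by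
      have := Real.isLittleO_log_id_atTop.tendsto_div_nhds_zero
      simpa using this
    have h2 : Tendsto (fun n : ℕ => Real.log n / (n : ℝ)) atTop (𝓝 0) :=
      h1.comp tendsto_natCast_atTop_atTop
    have h3 : Tendsto (fun n : ℕ => (n : ℝ) / ((n : ℝ) - 1)) atTop (𝓝 1) := by
      have h4 : Tendsto (fun n : ℕ => (1 : ℝ) / (1 - 1 / (n : ℝ))) atTop (𝓝 (1 / (1 - 0))) :=
        tendsto_const_nhds.div (tendsto_const_nhds.sub tendsto_one_div_atTop_nhds_zero_nat)
          (by norm_num)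
      rw [sub_zero, div_one] at h4
      refine h4.congr' ?_
      filter_upwards [eventually_ge_atTop 2] with n hn
      have : (2 : ℝ) ≤ n := by exact_mod_cast hn
      have h5 : (n : ℝ) - 1 ≠ 0 := by linarith
      have h6 : (n : ℝ) ≠ 0 := by linarith
      field_simp
    have h5 := (h2.mul h3).const_mul (d : ℝ)
    rw [zero_mul, mul_zero] at h5
    refine h5.congr' ?_
    filter_upwards [eventually_ge_atTop 2] with n hn
    have : (2 : ℝ) ≤ n := by exact_mod_cast hn
    have h5 : (n : ℝ) - 1 ≠ 0 := by linarith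
    have h6 : (n : ℝ) ≠ 0 := by linarith
    field_simp
  have hC : Tendsto (fun n : ℕ => (((n : ℝ) - d) / n) ^ d / (2 * d.factorial) *
      (Real.log (d + 1) - 1 - d * Real.log n / ((n : ℝ) - 1))) atTop
      (𝓝 ((1 : ℝ) ^ d / (2 * d.factorial) * (Real.log (d + 1) - 1 - 0))) :=
    ((hA.pow d).div_const _).mul (tendsto_const_nhds.sub hB)
  have hval : (1 : ℝ) ^ d / (2 * d.factorial) * (Real.log (d + 1) - 1 - 0) =
      (Real.log (d + 1) - 1) / (2 * d.factorial) := by
    rw [one_pow, sub_zero]; ring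
  rw [hval] at hC
  refine le_of_tendsto hC ?_
  have hpos : ∀ᶠ n : ℕ in atTop,
      0 < Real.log ((d : ℝ) + 1) - 1 - d * Real.log n / ((n : ℝ) - 1) := by
    have h1 : Tendsto (fun n : ℕ => Real.log ((d : ℝ) + 1) - 1 - d * Real.log n / ((n : ℝ) - 1))
        atTop (𝓝 (Real.log ((d : ℝ) + 1) - 1 - 0)) := tendsto_const_nhds.sub hB
    rw [sub_zero] at h1
    exact (tendsto_order.mp h1).1 0 (by linarith)
  filter_upwards [hpos, eventually_ge_atTop (d + 1)] with n hn hn2
  have hnpos : (0 : ℝ) < n := by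
    have : 0 < n := by omega
    exact_mod_cast this
  have h1 := hlow n hn2
  have h2 := hlam n
  have h3 : ((n : ℝ) - d) ^ d ≤ d.factorial * ((n - 1).choose d : ℝ) := by
    have h4 : (n - 1 + 1 - d) ^ d ≤ (n - 1).descFactorial d := Nat.pow_sub_le_descFactorial _ _
    rw [Nat.descFactorial_eq_factorial_mul_choose] at h4
    have h5 : n - 1 + 1 - d = n - d := by omega
    rw [h5] at h4
    have h6 : (((n - d : ℕ) : ℝ)) ^ d ≤ (d.factorial : ℝ) * ((n - 1).choose d : ℝ) := by
      exact_mod_cast h4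
    rwa [Nat.cast_sub (by omega)] at h6
  have hfac : (0 : ℝ) < (d.factorial : ℝ) := by positivity
  have h7 : ((n : ℝ) - d) ^ d / d.factorial *
      (Real.log (d + 1) - 1 - d * Real.log n / ((n : ℝ) - 1)) ≤ 2 * (lam * (n : ℝ) ^ d) := by
    refine le_trans (mul_le_mul_of_nonneg_right ?_ hn.le) (h1.trans (by linarith))
    rw [div_le_iff₀ hfac]
    linarith
  have hnd : (0 : ℝ) < (n : ℝ) ^ d := by positivity
  rw [div_pow]
  have e1 : ((n : ℝ) - d) ^ d / (n : ℝ) ^ d / (2 * d.factorial) *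
      (Real.log (d + 1) - 1 - d * Real.log n / ((n : ℝ) - 1)) =
      (((n : ℝ) - d) ^ d / d.factorial *
        (Real.log (d + 1) - 1 - d * Real.log n / ((n : ℝ) - 1))) / (2 * (n : ℝ) ^ d) := by
    field_simp
  rw [e1, div_le_iff₀ (by positivity)]
  linarith

end Pool.Agent.Lib.MP_9701dc_gt.GR
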