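import Mathlib

set_option autoImplicit false
set_option linter.unusedSectionVars false

/-!
# A large minor

`(card ι)! * det (A Aᵀ)` is the sum of the squares of the determinants of all `ι`-families of
columns of `A`, so some minor is large.
-/

namespace Pool.Agent.Lib.MP_9701dc_gt.GR

open Finset

variable {ι κ : Type} [Fintype ι] [DecidableEq ι] [Fintype κ] [DecidableEq κ]

theorem det_mul_transpose (A : Matrix ι κ ℝ) :
    (A * A.transpose).det =
      ∑ c : ι → κ, (∏ i, A i (c i)) * (A.submatrix id c).det := by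
  rw [Matrix.det_apply']
  have h1 : ∀ σ : Equiv.Perm ι, ∏ i, (A * A.transpose) (σ i) i =
      ∑ c : ι → κ, ∏ i, (A (σ i) (c i) * A i (c i)) := by
    intro σ
    simp only [Matrix.mul_apply, Matrix.transpose_apply]
    rw [prod_univ_sum]
    simp only [Fintype.piFinset_univ]
  simp only [h1, mul_sum]
  rw [sum_comm]
  refine sum_congr rfl fun c _ => ?_
  rw [Matrix.det_apply', mul_sum]
  refine sum_congr rfl fun σ _ => ?_
  rw [prod_mul_distrib]
  simp only [Matrix.submatrix_apply, id]
  ring

theorem factorial_mul_det (A : Matrix ι κ ℝ) :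
    ((Fintype.card ι).factorial : ℝ) * (A * A.transpose).det =
      ∑ c : ι → κ, (A.submatrix id c).det ^ 2 := by
  have key : ∀ σ : Equiv.Perm ι, (A * A.transpose).det =
      ∑ c : ι → κ, (∏ i, A i (c (σ i))) * ((Equiv.Perm.sign σ : ℤ) : ℝ) * (A.submatrix id c).det := by
    intro σ
    rw [det_mul_transpose]
    rw [← (Equiv.arrowCongr σ.symm (Equiv.refl κ)).sum_comp]
    refine sum_congr rfl fun c _ => ?_
    have h1 : (Equiv.arrowCongr σ.symm (Equiv.refl κ)) c = fun i => c (σ i) := by
      funext i
      simp [Equiv.arrowCongr]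
    rw [h1]
    have h2 : (A.submatrix id fun i => c (σ i)).det =
        ((Equiv.Perm.sign σ : ℤ) : ℝ) * (A.submatrix id c).det := by
      have : (A.submatrix id fun i => c (σ i)) = (A.submatrix id c).submatrix id σ := rfl
      rw [this, Matrix.det_permute']
    rw [h2]
    ring
  have h3 : ((Fintype.card ι).factorial : ℝ) * (A * A.transpose).det =
      ∑ _σ : Equiv.Perm ι, (A * A.transpose).det := by
    rw [sum_const, card_univ, Fintype.card_perm, nsmul_eq_mul]
  rw [h3]
  have h4 : ∑ _σ : Equiv.Perm ι, (A * A.transpose).det = ∑ σ : Equiv.Perm ι, ∑ c : ι → κ,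
      (∏ i, A i (c (σ i))) * ((Equiv.Perm.sign σ : ℤ) : ℝ) * (A.submatrix id c).det :=
    sum_congr rfl fun σ _ => key σ
  rw [h4, sum_comm]
  refine sum_congr rfl fun c _ => ?_
  have h5 : (A.submatrix id c).det =
      ∑ σ : Equiv.Perm ι, ((Equiv.Perm.sign σ : ℤ) : ℝ) * ∏ i, A i (c (σ i)) := by
    rw [← Matrix.det_transpose, Matrix.det_apply']
    refine sum_congr rfl fun σ _ => ?_
    congr 1
  calc ∑ σ : Equiv.Perm ι, (∏ i, A i (c (σ i))) * ((Equiv.Perm.sign σ : ℤ) : ℝ) *
        (A.submatrix id c).det =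
      (∑ σ : Equiv.Perm ι, ((Equiv.Perm.sign σ : ℤ) : ℝ) * ∏ i, A i (c (σ i))) *
        (A.submatrix id c).det := by
        rw [sum_mul]
        exact sum_congr rfl fun σ _ => by ring
    _ = (A.submatrix id c).det ^ 2 := by rw [← h5, sq]

/-- some minor is large -/
theorem exists_minor (A : Matrix ι κ ℝ) (hA : 0 < (A * A.transpose).det) :
    ∃ c : ι → κ, ((Fintype.card ι).factorial : ℝ) * (A * A.transpose).det ≤
      (Fintype.card κ : ℝ) ^ Fintype.card ι * (A.submatrix id c).det ^ 2 := by
  have h := factorial_mul_det A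
  by_contra hc
  push Not at hc
  have hne : (univ : Finset (ι → κ)).Nonempty := by
    by_contra hem
    rw [not_nonempty_iff_eq_empty] at hem
    rw [hem, sum_empty] at h
    have : (0 : ℝ) < ((Fintype.card ι).factorial : ℝ) * (A * A.transpose).det := by positivity
    linarith
  have hcard : ((univ : Finset (ι → κ)).card : ℝ) = (Fintype.card κ : ℝ) ^ Fintype.card ι := by
    rw [card_univ, Fintype.card_fun]
    push_cast
    rfl
  set P : ℝ := (Fintype.card κ : ℝ) ^ Fintype.card ι with hP
  have hPpos : 0 < P := by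
    rw [← hcard]
    exact_mod_cast card_pos.mpr hne
  have h1 : ∑ c : ι → κ, P * (A.submatrix id c).det ^ 2 <
      ∑ _c : ι → κ, ((Fintype.card ι).factorial : ℝ) * (A * A.transpose).det :=
    sum_lt_sum_of_nonempty hne fun c _ => hc c
  rw [← mul_sum, ← h, sum_const, nsmul_eq_mul, hcard] at h1
  exact lt_irrefl _ h1

/-- determinant of a symmetric matrix with eigenvalues `1` and `s` -/
theorem log_det_of_two (M : Matrix ι ι ℝ) (hM : M.IsHermitian) {s : ℝ} (hs : 1 < s)
    (h : (M - 1) * (M - s • (1 : Matrix ι ι ℝ)) = 0) :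
    0 < M.det ∧ Real.log M.det = (M.trace - Fintype.card ι) / (s - 1) * Real.log s := by
  have hev : ∀ i, hM.eigenvalues i = 1 ∨ hM.eigenvalues i = s := by
    intro i
    set v := hM.eigenvectorBasis i with hv
    have h1 := hM.mulVec_eigenvectorBasis i
    have h2 : (M - s • (1 : Matrix ι ι ℝ)).mulVec v = (hM.eigenvalues i - s) • (v : ι → ℝ) := by
      rw [Matrix.sub_mulVec, Matrix.smul_mulVec, Matrix.one_mulVec, h1, sub_smul]
    have h3 : (M - 1).mulVec v = (hM.eigenvalues i - 1) • (v : ι → ℝ) := by
      rw [Matrix.sub_mulVec, Matrix.one_mulVec, h1, sub_smul, one_smul]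
    have h4 : ((M - 1) * (M - s • (1 : Matrix ι ι ℝ))).mulVec v = 0 := by
      rw [h, Matrix.zero_mulVec]
    rw [← Matrix.mulVec_mulVec, h2, Matrix.mulVec_smul, h3, smul_smul] at h4
    have hne : (v : ι → ℝ) ≠ 0 := by
      intro h0
      have := hM.eigenvectorBasis.orthonormal.ne_zero i
      apply this
      ext j
      exact congrFun h0 j
    have h5 := (smul_eq_zero.mp h4).resolve_right hne
    rcases mul_eq_zero.mp h5 with h6 | h6
    · right; linarith
    · left; linarith
  have hdet : M.det = ∏ i, hM.eigenvalues i := by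
    have := hM.det_eq_prod_eigenvalues
    simpa using this
  have htr : M.trace = ∑ i, hM.eigenvalues i := by
    have := hM.trace_eq_sum_eigenvalues
    simpa using this
  have hpos : ∀ i, 0 < hM.eigenvalues i := by
    intro i
    rcases hev i with h1 | h1 <;> rw [h1] <;> linarith
  constructor
  · rw [hdet]
    exact prod_pos fun i _ => hpos i
  · rw [hdet, Real.log_prod fun i _ => (hpos i).ne', htr]
    have h1 : ∀ i, Real.log (hM.eigenvalues i) = (hM.eigenvalues i - 1) / (s - 1) * Real.log s := by
      intro i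
      rcases hev i with h1 | h1
      · rw [h1]; simp
      · rw [h1, div_self (by linarith), one_mul]
    rw [sum_congr rfl fun i _ => h1 i, ← sum_mul, ← sum_div, sum_sub_distrib, sum_const,
      card_univ, nsmul_eq_mul, mul_one]

end Pool.Agent.Lib.MP_9701dc_gt.GR
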