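import Pool.Agent.Lib.MP_9701dc_gt.GR.Hodge
import Pool.Agent.Lib.MP_9701dc_gt.GR.DetMax

set_option autoImplicit false
set_option linter.unusedSectionVars false

/-!
# The reduced up-Laplacian of the complete complex
-/

namespace Pool.Agent.Lib.MP_9701dc_gt.GR

open Finset Pool.Agent.Lib.MP_9701dc_gt

variable {n d : ℕ}

/-- the `d`-dimensional faces of the complete complex -/
abbrev Face (n d : ℕ) := {τ : Finset (Fin n) // τ.card = d + 1}

/-- the reduced incidence matrix -/
def Arr (n d : ℕ) (v : Fin n) : Matrix (Row n d v) (Face n d) ℝ := fun σ τ => (inc σ.1 τ.1 : ℝ)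

/-- the matrix of the boundary on the rows -/
def Brr (n d : ℕ) (v : Fin n) : Matrix (Finset (Fin n)) (Row n d v) ℝ :=
  fun ρ σ => (inc ρ σ.1 : ℝ)

theorem mul_transpose_eq (v : Fin n) :
    Arr n d v * (Arr n d v).transpose =
      (n : ℝ) • (1 : Matrix (Row n d v) (Row n d v) ℝ) - (Brr n d v).transpose * Brr n d v := by
  ext σ σ'
  have h := hodge σ.1 σ'.1
  have h1 : ∑ τ : Face n d, (inc σ.1 τ.1 : ℝ) * (inc σ'.1 τ.1 : ℝ) =
      ((∑ τ : Finset (Fin n), inc σ.1 τ * inc σ'.1 τ : ℤ) : ℝ) := by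
    push_cast
    rw [← sum_subtype (univ.filter fun τ : Finset (Fin n) => τ.card = d + 1) (by simp)
      (fun τ => (inc σ.1 τ : ℝ) * (inc σ'.1 τ : ℝ))]
    refine sum_subset (subset_univ _) fun τ _ hτ => ?_
    have : inc σ.1 τ = 0 := by
      refine inc_eq_zero_of_card fun hc => hτ (mem_filter.mpr ⟨mem_univ _, ?_⟩)
      rw [hc, (mem_rows.mp σ.2).1]
    rw [this]; simp
  simp only [Matrix.mul_apply, Matrix.transpose_apply, Matrix.sub_apply, Matrix.smul_apply,
    Matrix.one_apply, Arr, Brr, smul_eq_mul]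
  rw [h1, eq_sub_iff_add_eq]
  have h2 := congrArg (Int.cast : ℤ → ℝ) h
  push_cast at h2 ⊢
  rw [h2]
  by_cases hs : σ = σ'
  · rw [if_pos hs, if_pos (congrArg Subtype.val hs), mul_one]
  · rw [if_neg hs, if_neg (fun h => hs (Subtype.ext h)), mul_zero]

theorem sum_rows_mul (v : Fin n) {ρ θ : Finset (Fin n)} (hρ : ρ.card + 1 = d) (hv : v ∉ ρ)
    (hθ : θ.card + 1 = d) (hv' : v ∉ θ) :
    ∑ σ : Row n d v, inc ρ σ.1 * inc θ σ.1 =
      (if ρ = θ then (n : ℤ) - 1 else 0) - ∑ κ : Finset (Fin n), inc κ ρ * inc κ θ := by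
  have h := hodge ρ θ
  have h1 : ∑ σ : Row n d v, inc ρ σ.1 * inc θ σ.1 =
      ∑ σ ∈ rows n d v, inc ρ σ * inc θ σ :=
    (sum_coe_sort (rows n d v) fun σ => inc ρ σ * inc θ σ)
  have h2 : ∑ σ : Finset (Fin n), inc ρ σ * inc θ σ =
      ∑ σ ∈ rows n d v, inc ρ σ * inc θ σ + (if ρ = θ then 1 else 0) := by
    have h3 : ∑ σ : Finset (Fin n), inc ρ σ * inc θ σ =
        ∑ σ ∈ insert (insert v ρ) (rows n d v), inc ρ σ * inc θ σ := by
      symm
      refine sum_subset (subset_univ _) fun σ _ hσ => ?_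
      by_contra hc
      obtain ⟨x, hx, hx'⟩ := inc_ne_zero (left_ne_zero_of_mul hc)
      apply hσ
      by_cases hxv : x = v
      · subst hxv
        rw [hx']
        exact mem_insert_self _ _
      · refine mem_insert_of_mem (mem_rows.mpr ⟨?_, ?_⟩)
        · rw [hx', card_insert_of_notMem hx, hρ]
        · rw [hx', mem_insert, not_or]
          exact ⟨fun h => hxv h.symm, hv⟩
    rw [h3, sum_insert, add_comm]
    · congr 1
      rw [inc_insert hv]
      by_cases he : ρ = θ
      · subst he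
        rw [if_pos rfl, inc_insert hv, sg_sq]
      · rw [if_neg he]
        have : inc θ (insert v ρ) = 0 := by
          by_contra hc
          obtain ⟨x, hx, hx'⟩ := inc_ne_zero hc
          have hxv : x = v := by
            by_contra hne
            have h5 : v ∈ insert x θ := by rw [← hx']; exact mem_insert_self _ _
            rw [mem_insert] at h5
            rcases h5 with h5 | h5
            · exact hne h5.symm
            · exact hv' h5
          subst hxv
          apply he
          have h6 : (insert x ρ).erase x = (insert x θ).erase x := by rw [hx']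
          rwa [erase_insert hv, erase_insert hx] at h6
        rw [this, mul_zero]
    · intro hmem
      exact (mem_rows.mp hmem).2 (mem_insert_self _ _)
  rw [h1]
  rw [h2] at h
  by_cases he : ρ = θ
  · rw [if_pos he] at h ⊢
    rw [if_pos he] at h
    linarith
  · rw [if_neg he] at h ⊢
    rw [if_neg he] at h
    linarith

theorem B_mul (v : Fin n) :
    Brr n d v * (Brr n d v).transpose * Brr n d v = ((n : ℝ) - 1) • Brr n d v := by
  ext ρ σ'
  have hrow : ∀ θ : Finset (Fin n), ¬ (θ.card + 1 = d ∧ v ∉ θ) → ∀ σ : Row n d v,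
      inc θ σ.1 = 0 := by
    intro θ hθ σ
    by_contra hc
    obtain ⟨x, hx, hx'⟩ := inc_ne_zero hc
    have hσ := mem_rows.mp σ.2
    apply hθ
    constructor
    · rw [← hσ.1, hx', card_insert_of_notMem hx]
    · intro hvθ
      apply hσ.2
      rw [hx']
      exact mem_insert_of_mem hvθ
  simp only [Matrix.mul_apply, Matrix.transpose_apply, Matrix.smul_apply, Brr, smul_eq_mul]
  by_cases hρ : ρ.card + 1 = d ∧ v ∉ ρ
  · have h1 : ∀ θ : Finset (Fin n), (∑ σ : Row n d v, (inc ρ σ.1 : ℝ) * (inc θ σ.1 : ℝ)) *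
        (inc θ σ'.1 : ℝ) = ((if ρ = θ then (n : ℝ) - 1 else 0) -
          ∑ κ : Finset (Fin n), (inc κ ρ : ℝ) * (inc κ θ : ℝ)) * (inc θ σ'.1 : ℝ) := by
      intro θ
      by_cases hθ : θ.card + 1 = d ∧ v ∉ θ
      · congr 1
        have h := sum_rows_mul v hρ.1 hρ.2 hθ.1 hθ.2
        have h' := congrArg (Int.cast : ℤ → ℝ) h
        push_cast at h'
        exact h'
      · rw [hrow θ hθ σ']; simp
    rw [sum_congr rfl fun θ _ => h1 θ]
    simp only [sub_mul, sum_sub_distrib, ite_mul, zero_mul, sum_ite_eq, mem_univ, if_true]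
    have h2 : ∑ θ : Finset (Fin n), (∑ κ : Finset (Fin n), (inc κ ρ : ℝ) * (inc κ θ : ℝ)) *
        (inc θ σ'.1 : ℝ) = 0 := by
      simp only [sum_mul]
      rw [sum_comm]
      refine sum_eq_zero fun κ _ => ?_
      have h3 := congrArg (Int.cast : ℤ → ℝ) (inc_comp κ σ'.1)
      push_cast at h3
      calc ∑ θ : Finset (Fin n), (inc κ ρ : ℝ) * (inc κ θ : ℝ) * (inc θ σ'.1 : ℝ) =
          (inc κ ρ : ℝ) * ∑ θ : Finset (Fin n), (inc κ θ : ℝ) * (inc θ σ'.1 : ℝ) := by
            rw [mul_sum]
            exact sum_congr rfl fun θ _ => by ring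
        _ = 0 := by rw [h3, mul_zero]
    rw [h2, sub_zero]
  · rw [hrow ρ hρ σ']
    have h1 : ∀ θ : Finset (Fin n), (∑ σ : Row n d v, (inc ρ σ.1 : ℝ) * (inc θ σ.1 : ℝ)) = 0 := by
      intro θ
      refine sum_eq_zero fun σ _ => ?_
      rw [hrow ρ hρ σ]; simp
    simp only [h1, zero_mul, sum_const_zero, Int.cast_zero, mul_zero]

theorem trace_eq (v : Fin n) :
    (Arr n d v * (Arr n d v).transpose).trace = (Fintype.card (Row n d v) : ℝ) * ((n : ℝ) - d) := by
  rw [mul_transpose_eq, Matrix.trace_sub, Matrix.trace_smul, Matrix.trace_one]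
  have h1 : ((Brr n d v).transpose * Brr n d v).trace =
      (Fintype.card (Row n d v) : ℝ) * (d : ℝ) := by
    unfold Matrix.trace
    have h2 : ∀ σ : Row n d v, ((Brr n d v).transpose * Brr n d v).diag σ = (d : ℝ) := by
      intro σ
      simp only [Matrix.diag_apply, Matrix.mul_apply, Matrix.transpose_apply, Brr]
      have h3 : ∑ ρ : Finset (Fin n), inc ρ σ.1 * inc ρ σ.1 = (σ.1.card : ℤ) := by
        rw [sum_down, card_eq_sum_ones, Nat.cast_sum]
        refine sum_congr rfl fun y hy => ?_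
        rw [inc_eq_of_erase hy rfl, sg_sq]
        norm_num
      have h4 := congrArg (Int.cast : ℤ → ℝ) h3
      push_cast at h4
      rw [h4, (mem_rows.mp σ.2).1]
    rw [sum_congr rfl fun σ _ => h2 σ, sum_const, card_univ, nsmul_eq_mul]
  rw [h1, smul_eq_mul]
  ring

/-- determinant of the reduced up-Laplacian -/
theorem det_reduced (hn : 2 ≤ n) (v : Fin n) :
    0 < (Arr n d v * (Arr n d v).transpose).det ∧
    Real.log (Arr n d v * (Arr n d v).transpose).det =
      (Fintype.card (Row n d v) : ℝ) * ((n : ℝ) - d - 1) / ((n : ℝ) - 1) * Real.log n := by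
  have hs : (1 : ℝ) < n := by exact_mod_cast hn
  have hH : (Arr n d v * (Arr n d v).transpose).IsHermitian := by
    have := Matrix.isHermitian_mul_conjTranspose_self (Arr n d v)
    rwa [Matrix.conjTranspose_eq_transpose_of_trivial] at this
  have hprod : (Arr n d v * (Arr n d v).transpose - 1) *
      (Arr n d v * (Arr n d v).transpose - (n : ℝ) • (1 : Matrix (Row n d v) (Row n d v) ℝ)) = 0 := by
    rw [mul_transpose_eq]
    set B := Brr n d v with hB
    have h1 : B.transpose * (B * B.transpose * B) = B.transpose * (((n : ℝ) - 1) • B) := by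
      rw [hB, B_mul]
    have h2 : B.transpose * B * (B.transpose * B) = ((n : ℝ) - 1) • (B.transpose * B) := by
      rw [Matrix.mul_smul] at h1
      rw [← h1]
      simp only [Matrix.mul_assoc]
    have h3 : (n : ℝ) • (1 : Matrix (Row n d v) (Row n d v) ℝ) - B.transpose * B -
        (n : ℝ) • (1 : Matrix (Row n d v) (Row n d v) ℝ) = -(B.transpose * B) := by
      abel
    rw [h3, mul_neg, sub_mul, sub_mul, h2, smul_mul_assoc, one_mul, sub_smul, one_smul]
    abel
  obtain ⟨h1, h2⟩ := log_det_of_two _ hH hs hprod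
  refine ⟨h1, ?_⟩
  rw [h2, trace_eq]
  congr 2
  ring

/-- **A large minor of the reduced incidence matrix.** -/
theorem exists_faces (hn : 2 ≤ n) (v : Fin n) :
    ∃ c : Row n d v → Face n d,
      0 < (Matrix.of fun i σ : Row n d v => inc σ.1 (c i).1).det ^ 2 ∧
      Real.log ((Fintype.card (Row n d v)).factorial : ℝ) +
        (Fintype.card (Row n d v) : ℝ) * ((n : ℝ) - d - 1) / ((n : ℝ) - 1) * Real.log n ≤
      (Fintype.card (Row n d v) : ℝ) * Real.log (n.choose (d + 1)) +
        Real.log (((Matrix.of fun i σ : Row n d v => inc σ.1 (c i).1).det : ℝ) ^ 2) := by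
  obtain ⟨hpos, hlog⟩ := det_reduced (d := d) hn v
  obtain ⟨c, hc⟩ := exists_minor (Arr n d v) hpos
  have hdet : ((Arr n d v).submatrix id c).det =
      ((Matrix.of fun i σ : Row n d v => inc σ.1 (c i).1).det : ℝ) := by
    rw [← Matrix.det_transpose]
    have h1 : ((Arr n d v).submatrix id c).transpose =
        (Matrix.of fun i σ : Row n d v => inc σ.1 (c i).1).map (Int.cast : ℤ → ℝ) := by
      ext i σ
      simp [Arr]
    rw [h1]
    exact ((Int.castRingHom ℝ).map_det _).symm
  rw [hdet] at hc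
  have hcardF : (Fintype.card (Face n d) : ℝ) = (n.choose (d + 1) : ℝ) := by
    have : Fintype.card (Face n d) = n.choose (d + 1) := by
      rw [Fintype.card_finset_len, Fintype.card_fin]
    rw [this]
  rw [hcardF] at hc
  have hfac : (0 : ℝ) < ((Fintype.card (Row n d v)).factorial : ℝ) := by positivity
  have hL : (0 : ℝ) < ((Fintype.card (Row n d v)).factorial : ℝ) *
      (Arr n d v * (Arr n d v).transpose).det := mul_pos hfac hpos
  set x : ℤ := (Matrix.of fun i σ : Row n d v => inc σ.1 (c i).1).det with hx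
  have hR : (0 : ℝ) < (n.choose (d + 1) : ℝ) ^ Fintype.card (Row n d v) * (x : ℝ) ^ 2 := hL.trans_le hc
  have hx0 : x ≠ 0 := by
    intro h0
    rw [h0] at hR
    simp at hR
  have hx2 : (0 : ℝ) < (x : ℝ) ^ 2 := by
    have : (x : ℝ) ≠ 0 := by exact_mod_cast hx0
    positivity
  have hP : (0 : ℝ) < (n.choose (d + 1) : ℝ) ^ Fintype.card (Row n d v) :=
    pos_of_mul_pos_left hR hx2.le
  refine ⟨c, by positivity, ?_⟩
  have h3 := Real.log_le_log hL hc
  rw [Real.log_mul hfac.ne' hpos.ne', Real.log_mul hP.ne' hx2.ne', Real.log_pow, hlog] at h3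
  exact h3

end Pool.Agent.Lib.MP_9701dc_gt.GR
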