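import Pool.Agent.Lib.MP_9701dc_gt.GR.Block

set_option autoImplicit false
set_option linter.unusedSectionVars false

/-!
# Torsion of a complex with complete skeleton

If `X` consists of all nonempty sets with at most `d` elements and of `binom (n-1) d` sets with
`d + 1` elements whose reduced boundary matrix `A` is nonsingular, then the torsion of `H_{d-1}`
is at least `|det A|`.
-/

namespace Pool.Agent.Lib.MP_9701dc_gt.GR

open Finset Pool.Agent.Results.MP_9701dc_gt.TorsionBound Pool.Agent.Lib.MP_9701dc_gt

variable {n : ℕ}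

/-- all nonempty sets with at most `k` elements, together with the sets in `S` -/
def skel (k : ℕ) (S : Finset (Finset (Fin n))) : Finset (Finset (Fin n)) :=
  (univ.filter fun σ => σ.Nonempty ∧ σ.card ≤ k) ∪ S

theorem mem_skel {k : ℕ} {S : Finset (Finset (Fin n))} {σ : Finset (Fin n)} :
    σ ∈ skel k S ↔ (σ.Nonempty ∧ σ.card ≤ k) ∨ σ ∈ S := by
  simp [skel]

theorem isComplex_skel {k : ℕ} (hk : 1 ≤ k) {S : Finset (Finset (Fin n))}
    (hS : ∀ τ ∈ S, τ.card = k + 1) : IsComplex (skel k S) where
  nonempty := by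
    intro σ hσ
    rcases mem_skel.mp hσ with h | h
    · exact h.1
    · rw [← card_pos, hS σ h]; omega
  vertex := fun v => mem_skel.mpr (Or.inl ⟨singleton_nonempty v, by rw [card_singleton]; exact hk⟩)
  face := by
    intro τ hτ σ hσ hne
    rcases mem_skel.mp hτ with h | h
    · exact mem_skel.mpr (Or.inl ⟨hne, (card_le_card hσ).trans h.2⟩)
    · by_cases he : σ = τ
      · rw [he]; exact hτ
      · have h1 : σ.card < τ.card := card_lt_card (lt_of_le_of_ne hσ he)
        rw [hS τ h] at h1
        exact mem_skel.mpr (Or.inl ⟨hne, by omega⟩)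

theorem card_le_of_mem_skel {k : ℕ} {S : Finset (Finset (Fin n))}
    (hS : ∀ τ ∈ S, τ.card = k + 1) {σ : Finset (Fin n)} (hσ : σ ∈ skel k S) : σ.card ≤ k + 1 := by
  rcases mem_skel.mp hσ with h | h
  · exact h.2.trans (Nat.le_succ k)
  · exact (hS σ h).le

/-- the cone over a function on the rows -/
def cone {k : ℕ} {v : Fin n} (a : Row n k v → ℤ) : Finset (Fin n) → ℤ :=
  fun τ => ∑ σ : Row n k v, if τ = insert v σ.1 then a σ * sg v σ.1 else 0

theorem D_cone_apply {k : ℕ} {v : Fin n} (a : Row n k v → ℤ) (ρ : Finset (Fin n)) :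
    D (cone a) ρ = ∑ σ : Row n k v, a σ * (sg v σ.1 * inc ρ (insert v σ.1)) := by
  unfold D cone
  simp only [mul_sum]
  rw [sum_comm]
  refine sum_congr rfl fun σ _ => ?_
  rw [sum_eq_single (insert v σ.1)]
  · rw [if_pos rfl]; ring
  · intro τ _ hτ
    rw [if_neg hτ, mul_zero]
  · intro h
    exact absurd (mem_univ _) h

theorem D_cone_row {k : ℕ} {v : Fin n} (a : Row n k v → ℤ) (σ : Row n k v) :
    D (cone a) σ.1 = a σ := by
  rw [D_cone_apply, sum_eq_single σ]
  · rw [inc_insert (mem_rows.mp σ.2).2, sg_sq, mul_one]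
  · intro σ' _ hne
    have : inc σ.1 (insert v σ'.1) = 0 := by
      by_contra hc
      obtain ⟨u, hu, hue⟩ := inc_ne_zero hc
      have hvσ := (mem_rows.mp σ.2).2
      have hvσ' := (mem_rows.mp σ'.2).2
      have huv : v = u := by
        have : v ∈ insert u σ.1 := by rw [← hue]; exact mem_insert_self _ _
        rw [mem_insert] at this
        exact this.resolve_right hvσ
      apply hne
      apply Subtype.ext
      have h1 := congrArg (fun s => s.erase v) hue
      simp only [erase_insert hvσ'] at h1
      rw [h1, ← huv, erase_insert hvσ]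
    rw [this]; ring
  · intro h
    exact absurd (mem_univ _) h

theorem D_cone_eq_zero {k : ℕ} {v : Fin n} (a : Row n k v → ℤ) {ρ : Finset (Fin n)}
    (h : ρ.card ≠ k) : D (cone a) ρ = 0 := by
  rw [D_cone_apply]
  refine sum_eq_zero fun σ _ => ?_
  have : inc ρ (insert v σ.1) = 0 := by
    apply inc_eq_zero_of_card
    rw [card_insert_of_notMem (mem_rows.mp σ.2).2, (mem_rows.mp σ.2).1]
    omega
  rw [this]; ring

theorem D_cone_add {k : ℕ} {v : Fin n} (a b : Row n k v → ℤ) :
    D (cone (a + b)) = D (cone a) + D (cone b) := by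
  funext ρ
  rw [Pi.add_apply, D_cone_apply, D_cone_apply, D_cone_apply, ← sum_add_distrib]
  exact sum_congr rfl fun σ _ => by rw [Pi.add_apply]; ring

theorem tors_skel {m : ℕ} (hm : 1 ≤ m) (v : Fin n) (T : Row n (m + 1) v → Finset (Fin n))
    (hTc : ∀ i, (T i).card = m + 2) (A : Matrix (Row n (m + 1) v) (Row n (m + 1) v) ℤ)
    (hA : ∀ i σ, A i σ = inc σ.1 (T i)) (hdet : A.det ≠ 0) :
    A.det.natAbs ≤ tors (skel (m + 1) (univ.image T)) m := by
  classical
  set X : Finset (Finset (Fin n)) := skel (m + 1) (univ.image T) with hXdef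
  have hX : IsComplex X := isComplex_skel (by omega) (by
    intro τ hτ
    obtain ⟨i, _, rfl⟩ := mem_image.mp hτ
    exact hTc i)
  have hfin : Finite {h : Homology X m // IsOfFinAddOrder h} :=
    (result n (m + 1) (by omega) X hX).1
  -- the cycles
  have hext : ∀ a : Row n (m + 1) v → ℤ,
      ext X (m + 1) (toChain X (m + 1) (D (cone a))) = D (cone a) := by
    intro a
    refine ext_toChain fun σ hσ => ?_
    by_cases hc : σ.card = m + 1
    · exfalso
      apply hσ
      refine ⟨mem_skel.mpr (Or.inl ⟨?_, hc.le⟩), hc⟩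
      rw [← card_pos]; omega
    · exact D_cone_eq_zero a hc
  have hcyc : ∀ a : Row n (m + 1) v → ℤ,
      boundary X m (toChain X (m + 1) (D (cone a))) = 0 := by
    intro a
    apply ext_injective X m
    rw [ext_boundary hX hm, hext, D_D, ext_zero]
  let z : (Row n (m + 1) v → ℤ) →+ Cycles X m := AddMonoidHom.mk'
    (fun a => ⟨toChain X (m + 1) (D (cone a)), hcyc a⟩) (by
      intro a b
      apply Subtype.ext
      change toChain X (m + 1) (D (cone (a + b))) = toChain X (m + 1) (D (cone a)) +
        toChain X (m + 1) (D (cone b))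
      rw [D_cone_add]
      rfl)
  let Bd : AddSubgroup (Cycles X m) := (boundary X (m + 1)).range.addSubgroupOf (Cycles X m)
  let q : Cycles X m →+ Homology X m := QuotientAddGroup.mk' Bd
  have hqker : ∀ x, q x = 0 ↔ x ∈ Bd := fun x => QuotientAddGroup.eq_zero_iff x
  -- the lattice
  have hli : LinearIndependent ℤ A.row := Matrix.linearIndependent_rows_of_det_ne_zero hdet
  set L : Submodule ℤ (Row n (m + 1) v → ℤ) := Submodule.span ℤ (Set.range A.row) with hL
  have hcard : Nat.card ((Row n (m + 1) v → ℤ) ⧸ L) = A.det.natAbs := by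
    rw [← Submodule.natAbs_det_basis_change (Pi.basisFun ℤ (Row n (m + 1) v)) L
      (Module.Basis.span hli), Pi.basisFun_det_apply]
    congr 2
    funext i j
    exact congrFun (congrArg Subtype.val (Module.Basis.span_apply hli i)) j
  -- kernel contained in the lattice
  have hker1 : ∀ a, q (z a) = 0 → a ∈ L := by
    intro a ha
    rw [hqker] at ha
    obtain ⟨c, hc⟩ := ha
    have hc1 : boundary X (m + 1) c = toChain X (m + 1) (D (cone a)) := hc
    have h1 : ∀ σ : Row n (m + 1) v, a σ =
        ∑ τ : {σ : Finset (Fin n) // σ ∈ X ∧ σ.card = m + 2}, inc σ.1 τ.1 * c τ := by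
      intro σ
      have h2 : ext X (m + 1) (boundary X (m + 1) c) σ.1 =
          ext X (m + 1) (toChain X (m + 1) (D (cone a))) σ.1 := by rw [hc1]
      rw [hext, ext_boundary hX (by omega), D_ext_apply, D_cone_row] at h2
      exact h2.symm
    have h3 : a = ∑ τ : {σ : Finset (Fin n) // σ ∈ X ∧ σ.card = m + 2},
        c τ • (fun σ : Row n (m + 1) v => inc σ.1 τ.1) := by
      funext σ
      rw [h1 σ, Finset.sum_apply]
      exact sum_congr rfl fun τ _ => by
        rw [Pi.smul_apply, smul_eq_mul, mul_comm]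
    rw [h3]
    refine Submodule.sum_mem _ fun τ _ => Submodule.smul_mem _ _ ?_
    have hτ : τ.1 ∈ univ.image T := by
      rcases mem_skel.mp τ.2.1 with h | h
      · exfalso
        have := τ.2.2
        omega
      · exact h
    obtain ⟨i, _, hi⟩ := mem_image.mp hτ
    apply Submodule.subset_span
    refine ⟨i, ?_⟩
    funext σ
    change A i σ = _
    rw [hA, hi]
  -- the lattice is contained in the kernel
  have hker2 : ∀ a ∈ L, q (z a) = 0 := by
    intro a ha
    refine Submodule.span_induction (p := fun a _ => q (z a) = 0) ?_ ?_ ?_ ?_ ha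
    · rintro _ ⟨i, rfl⟩
      rw [hqker]
      have hTi : T i ∈ X ∧ (T i).card = m + 2 :=
        ⟨mem_skel.mpr (Or.inr (mem_image_of_mem _ (mem_univ i))), hTc i⟩
      let c : Chain X (m + 2) := fun τ => if τ.1 = T i then 1 else 0
      refine ⟨c, ?_⟩
      change boundary X (m + 1) c = toChain X (m + 1) (D (cone (A.row i)))
      have hzero : boundary X (m + 1) c - toChain X (m + 1) (D (cone (A.row i))) = 0 := by
        apply cycle_eq_zero hX hm v
        · rw [map_sub, boundary_boundary hX hm, hcyc, sub_zero]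
        · intro σ hσ
          rw [ext_sub, Pi.sub_apply, hext, ext_boundary hX (by omega), D_ext_apply]
          have e1 := D_cone_row (A.row i) ⟨σ, hσ⟩
          change D (cone (A.row i)) σ = A i ⟨σ, hσ⟩ at e1
          rw [e1, hA, sum_eq_single ⟨T i, hTi⟩]
          · simp [c]
          · intro τ _ hne
            have : c τ = 0 := if_neg fun h => hne (Subtype.ext h)
            rw [this, mul_zero]
          · intro h
            exact absurd (mem_univ _) h
      exact sub_eq_zero.mp hzero
    · rw [map_zero, map_zero]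
    · intro x y _ _ hx hy
      rw [map_add, map_add, hx, hy, add_zero]
    · intro k x _ hx
      rw [map_zsmul, map_zsmul, hx, smul_zero]
  -- count
  have hpos : 0 < A.det.natAbs := Int.natAbs_pos.mpr hdet
  have hfinq : Finite ((Row n (m + 1) v → ℤ) ⧸ L) := by
    apply Nat.finite_of_card_ne_zero
    rw [hcard]
    exact hpos.ne'
  have htor : ∀ a : Row n (m + 1) v → ℤ, IsOfFinAddOrder (q (z a)) := by
    intro a
    rw [isOfFinAddOrder_iff_nsmul_eq_zero]
    refine ⟨A.det.natAbs, hpos, ?_⟩
    rw [← map_nsmul, ← map_nsmul]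
    apply hker2
    have h1 : A.det.natAbs • (Submodule.Quotient.mk a : (Row n (m + 1) v → ℤ) ⧸ L) = 0 := by
      rw [← hcard]
      exact card_nsmul_eq_zero'
    rw [← Submodule.Quotient.mk_smul] at h1
    exact (Submodule.Quotient.mk_eq_zero L).mp h1
  choose r hr using Submodule.Quotient.mk_surjective L
  let F : (Row n (m + 1) v → ℤ) ⧸ L → {h : Homology X m // IsOfFinAddOrder h} := fun x =>
    ⟨q (z (r x)), htor _⟩
  have hF : Function.Injective F := by
    intro x y hxy
    have h1 : q (z (r x)) = q (z (r y)) := congrArg Subtype.val hxy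
    have h2 : q (z (r x - r y)) = 0 := by
      rw [map_sub, map_sub, h1, sub_self]
    have h3 := hker1 _ h2
    rw [← hr x, ← hr y]
    exact (Submodule.Quotient.eq L).mpr h3
  rw [← hcard]
  change Nat.card _ ≤ Nat.card {h : Homology X m // IsOfFinAddOrder h}
  exact Nat.card_le_card_of_injective F hF

end Pool.Agent.Lib.MP_9701dc_gt.GR
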