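import Pool.Agent.Lib.MP_9701dc_gt.GR.Growth
import Pool.Agent.Lib.MP_9701dc_gt.GR.Reduced
import Pool.Agent.Lib.MP_9701dc_gt.GR.Analysis
import Pool.Agent.Lib.MP_9701dc_gt.GR.Skel

set_option autoImplicit false

/-!
# The lower bound for the maximal torsion
-/

namespace Pool.Agent.Lib.MP_9701dc_gt.GR

open Finset Pool.Agent.Lib.MP_9701dc_gt Pool.Agent.Results.MP_9701dc_gt.TorsionBound

theorem lower {n d : ℕ} (hd : 2 ≤ d) (hn : d + 1 ≤ n) :
    ((n - 1).choose d : ℝ) * (Real.log (d + 1) - 1 - d * Real.log n / ((n : ℝ) - 1)) ≤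
      2 * Real.log (Tmax n d) := by
  obtain ⟨m, rfl⟩ : ∃ m, d = m + 1 := ⟨d - 1, by omega⟩
  have hm : 1 ≤ m := by omega
  obtain ⟨v⟩ : Nonempty (Fin n) := ⟨⟨0, by omega⟩⟩
  have hN : Fintype.card (Row n (m + 1) v) = (n - 1).choose (m + 1) := by
    rw [Fintype.card_coe]
    have : rows n (m + 1) v = (univ.erase v).powersetCard (m + 1) := by
      ext σ
      rw [mem_rows, mem_powersetCard]
      constructor
      · rintro ⟨h1, h2⟩
        exact ⟨fun x hx => mem_erase.mpr ⟨fun h => h2 (h ▸ hx), mem_univ _⟩, h1⟩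
      · rintro ⟨h1, h2⟩
        exact ⟨h2, fun h => (mem_erase.mp (h1 h)).1 rfl⟩
    rw [this, card_powersetCard, card_erase_of_mem (mem_univ _), card_univ, Fintype.card_fin]
  obtain ⟨c, hpos, hc⟩ := exists_faces (d := m + 1) (by omega : 2 ≤ n) v
  set A : Matrix (Row n (m + 1) v) (Row n (m + 1) v) ℤ :=
    Matrix.of fun i σ : Row n (m + 1) v => inc σ.1 (c i).1 with hA
  have hAe : ∀ i σ, A i σ = inc σ.1 (c i).1 := fun i σ => rfl
  clear_value A
  have hdet : A.det ≠ 0 := by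
    intro h0
    rw [h0] at hpos
    exact lt_irrefl _ hpos
  have hne : Nonempty (Row n (m + 1) v) := by
    rw [← Fintype.card_pos_iff, hN]
    exact Nat.choose_pos (by omega)
  obtain ⟨S, hS⟩ : ∃ S : Finset (Finset (Fin n)),
      S = univ.image fun i : Row n (m + 1) v => (c i).1 := ⟨_, rfl⟩
  have hfac : ∀ σ ∈ S, σ.card = m + 1 + 1 := by
    intro σ hσ
    rw [hS] at hσ
    obtain ⟨i, _, rfl⟩ := mem_image.mp hσ
    exact (c i).2
  have hmemS : ∃ σ ∈ S, σ.card = m + 1 + 1 := by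
    obtain ⟨i⟩ := hne
    refine ⟨(c i).1, ?_, (c i).2⟩
    rw [hS]
    exact mem_image.mpr ⟨i, mem_univ _, rfl⟩
  have h1 : A.det.natAbs ≤ tors (skel (m + 1) S) m := by
    rw [hS]
    exact tors_skel hm v (fun i => (c i).1) (fun i => (c i).2) A hAe hdet
  have hXc : IsComplex (skel (m + 1) S) := isComplex_skel (by omega) hfac
  have hXd : IsDim (m + 1) (skel (m + 1) S) := by
    obtain ⟨σ, hσ, hσc⟩ := hmemS
    exact ⟨⟨σ, mem_skel.mpr (Or.inr hσ), hσc⟩, fun σ hσ => card_le_of_mem_skel hfac hσ⟩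
  have h2' := le_Tmax hXc hXd
  rw [Nat.add_sub_cancel] at h2'
  have h2 : A.det.natAbs ≤ Tmax n (m + 1) := h1.trans h2'
  have h3 : Real.log ((A.det : ℝ) ^ 2) ≤ 2 * Real.log (Tmax n (m + 1)) := by
    rw [Real.log_pow]
    have h4 : |(A.det : ℝ)| ≤ (Tmax n (m + 1) : ℝ) := by
      rw [← Int.cast_abs, Int.abs_eq_natAbs]
      exact_mod_cast h2
    have h5 : (0 : ℝ) < |(A.det : ℝ)| := by
      rw [abs_pos]
      exact_mod_cast hdet
    have h6 := Real.log_le_log h5 h4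
    rw [Real.log_abs] at h6
    rw [Nat.cast_ofNat]
    linarith
  rw [hN] at hc
  exact (simplify (by omega) hn rfl rfl (x := Real.log ((A.det : ℝ) ^ 2)) hc).trans h3

end Pool.Agent.Lib.MP_9701dc_gt.GR
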