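import Pool.Agent.Results.MP_9701dc_gt.TorsionBound

set_option autoImplicit false
set_option linter.unusedSectionVars false

/-!
# Torsion of a union of blocks

If a simplicial complex on `n` vertices is the union of copies of a complex `Y` on blocks of
vertices, any two of which have fewer than `k + 1` common vertices, then the torsion of `H_k` of
the union is at least the product of the torsion numbers of the copies.
-/

namespace Pool.Agent.Lib.MP_9701dc_gt.GR

open Finset Pool.Agent.Results.MP_9701dc_gt.TorsionBound Pool.Agent.Lib.MP_9701dc_gt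

variable {m n : ℕ}

/-- incidence numbers are invariant under order embeddings -/
theorem inc_map (f : Fin m ↪o Fin n) (σ τ : Finset (Fin m)) :
    inc (σ.map f.toEmbedding) (τ.map f.toEmbedding) = inc σ τ := by
  unfold inc
  rw [sum_map]
  refine sum_congr rfl fun v _ => ?_
  have h1 : (τ.map f.toEmbedding).erase (f.toEmbedding v) = (τ.erase v).map f.toEmbedding :=
    (map_erase _ _ _).symm
  have h2 : ((τ.map f.toEmbedding).filter (· < f.toEmbedding v)).card =
      (τ.filter (· < v)).card := by
    rw [filter_map, card_map]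
    congr 1
    ext x
    simp
  rw [h1, h2]
  by_cases h : τ.erase v = σ
  · rw [if_pos h, if_pos (by rw [h])]
  · rw [if_neg h, if_neg]
    intro hc
    exact h (map_injective _ hc)

/-- push forward of a function on finite sets along an embedding -/
def push (f : Fin m ↪o Fin n) (g : Finset (Fin m) → ℤ) : Finset (Fin n) → ℤ :=
  fun σ => ∑ τ : Finset (Fin m), if τ.map f.toEmbedding = σ then g τ else 0

theorem push_map (f : Fin m ↪o Fin n) (g : Finset (Fin m) → ℤ) (τ : Finset (Fin m)) :
    push f g (τ.map f.toEmbedding) = g τ := by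
  unfold push
  rw [sum_eq_single τ]
  · simp
  · intro b _ hb
    rw [if_neg]
    intro h
    exact hb (map_injective _ h)
  · intro h
    exact absurd (mem_univ _) h

theorem push_eq_zero (f : Fin m ↪o Fin n) (g : Finset (Fin m) → ℤ) {σ : Finset (Fin n)}
    (h : ∀ τ : Finset (Fin m), τ.map f.toEmbedding ≠ σ) : push f g σ = 0 := by
  unfold push
  exact sum_eq_zero fun τ _ => if_neg (h τ)

/-- the boundary commutes with the push forward -/
theorem D_push (f : Fin m ↪o Fin n) (g : Finset (Fin m) → ℤ) :
    D (push f g) = push f (D g) := by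
  funext ρ
  have h1 : D (push f g) ρ = ∑ τ : Finset (Fin m), inc ρ (τ.map f.toEmbedding) * g τ := by
    unfold D push
    simp only [mul_sum]
    rw [sum_comm]
    refine sum_congr rfl fun τ _ => ?_
    rw [sum_eq_single (τ.map f.toEmbedding)]
    · simp
    · intro b _ hb
      rw [if_neg hb.symm, mul_zero]
    · intro h
      exact absurd (mem_univ _) h
  rw [h1]
  by_cases h : ∃ ρ' : Finset (Fin m), ρ'.map f.toEmbedding = ρ
  · obtain ⟨ρ', rfl⟩ := h
    rw [push_map]
    unfold D
    exact sum_congr rfl fun τ _ => by rw [inc_map]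
  · push Not at h
    rw [push_eq_zero f _ h]
    refine sum_eq_zero fun τ _ => ?_
    have : inc ρ (τ.map f.toEmbedding) = 0 := by
      by_contra hc
      obtain ⟨v, hv, hv'⟩ := inc_ne_zero hc
      have hvm : v ∈ τ.map f.toEmbedding := by rw [hv']; exact mem_insert_self _ _
      obtain ⟨w, hw, rfl⟩ := mem_map.mp hvm
      apply h (τ.erase w)
      rw [map_erase, hv', erase_insert hv]
    rw [this, zero_mul]

variable {ι : Type} [Fintype ι] [DecidableEq ι]

/-- The union of the copies of `Y` under the maps `f i`, with all vertices. -/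
def blockSum (f : ι → Fin m ↪o Fin n) (Y : Finset (Finset (Fin m))) : Finset (Finset (Fin n)) :=
  univ.image (fun v : Fin n => {v}) ∪
    univ.biUnion fun i => Y.image fun τ => τ.map (f i).toEmbedding

theorem mem_blockSum {f : ι → Fin m ↪o Fin n} {Y : Finset (Finset (Fin m))}
    {σ : Finset (Fin n)} : σ ∈ blockSum f Y ↔
      (∃ v, {v} = σ) ∨ ∃ i, ∃ τ ∈ Y, τ.map (f i).toEmbedding = σ := by
  unfold blockSum
  simp

theorem isComplex_blockSum {f : ι → Fin m ↪o Fin n} {Y : Finset (Finset (Fin m))}
    (hY : IsComplex Y) : IsComplex (blockSum f Y) where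
  nonempty := by
    intro σ hσ
    rcases mem_blockSum.mp hσ with ⟨v, rfl⟩ | ⟨i, τ, hτ, rfl⟩
    · exact singleton_nonempty v
    · exact (hY.nonempty τ hτ).map
  vertex := fun v => mem_blockSum.mpr (Or.inl ⟨v, rfl⟩)
  face := by
    intro τ hτ σ hσ hne
    rcases mem_blockSum.mp hτ with ⟨v, rfl⟩ | ⟨i, τ', hτ', rfl⟩
    · rcases subset_singleton_iff.mp hσ with h | h
      · exact absurd h hne.ne_empty
      · rw [h]; exact mem_blockSum.mpr (Or.inl ⟨v, rfl⟩)
    · obtain ⟨σ', hσ', rfl⟩ := subset_map_iff.mp hσ
      refine mem_blockSum.mpr (Or.inr ⟨i, σ', hY.face τ' hτ' σ' hσ' ?_, rfl⟩)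
      exact map_nonempty.mp hne

/-- The number of elements of finite order of `H_k`. -/
noncomputable def tors (X : Finset (Finset (Fin n))) (k : ℕ) : ℕ :=
  {h : Homology X k | IsOfFinAddOrder h}.ncard

/-- restriction of a function on finite sets to the chains of `X` -/
def toChain (X : Finset (Finset (Fin n))) (k : ℕ) (g : Finset (Fin n) → ℤ) : Chain X k :=
  fun σ => g σ.1

theorem ext_toChain {X : Finset (Finset (Fin n))} {k : ℕ} {g : Finset (Fin n) → ℤ}
    (h : ∀ σ, ¬ (σ ∈ X ∧ σ.card = k) → g σ = 0) : ext X k (toChain X k g) = g := by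
  funext σ
  by_cases hσ : σ ∈ X ∧ σ.card = k
  · exact ext_of_mem (toChain X k g) ⟨σ, hσ⟩
  · rw [ext_of_not _ hσ, h σ hσ]

theorem ext_add {X : Finset (Finset (Fin n))} {k : ℕ} (a b : Chain X k) :
    ext X k (a + b) = ext X k a + ext X k b := by
  funext σ
  simp only [Pi.add_apply]
  unfold Results.MP_9701dc_gt.TorsionBound.ext
  split_ifs with h
  · rfl
  · simp

theorem ext_sub {X : Finset (Finset (Fin n))} {k : ℕ} (a b : Chain X k) :
    ext X k (a - b) = ext X k a - ext X k b := by
  funext σ
  simp only [Pi.sub_apply]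
  unfold Results.MP_9701dc_gt.TorsionBound.ext
  split_ifs with h
  · rfl
  · simp

theorem ext_nsmul {X : Finset (Finset (Fin n))} {k : ℕ} (N : ℕ) (a : Chain X k) :
    ext X k (N • a) = fun σ => (N : ℤ) * ext X k a σ := by
  induction N with
  | zero => rw [zero_smul, ext_zero]; funext σ; simp
  | succ N ih =>
    rw [succ_nsmul, ext_add, ih]
    funext σ
    simp only [Pi.add_apply]
    push_cast
    ring

theorem D_add (a b : Finset (Fin n) → ℤ) : D (a + b) = D a + D b := by
  funext ρ
  unfold D
  simp only [Pi.add_apply, mul_add, sum_add_distrib]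

theorem D_sum {κ : Type} (s : Finset κ) (g : κ → Finset (Fin n) → ℤ) :
    D (fun σ => ∑ i ∈ s, g i σ) = fun ρ => ∑ i ∈ s, D (g i) ρ := by
  funext ρ
  unfold D
  simp only [mul_sum]
  rw [sum_comm]

section

variable (f : ι → Fin m ↪o Fin n) {Y : Finset (Finset (Fin m))} (hY : IsComplex Y)

/-- the sum of the push forwards of a family of chains of `Y` -/
def pushF (k : ℕ) (c : ι → Chain Y k) : Finset (Fin n) → ℤ :=
  fun σ => ∑ i, push (f i) (ext Y k (c i)) σ

theorem pushF_eq_zero {k : ℕ} (c : ι → Chain Y k) (σ : Finset (Fin n))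
    (h : ¬ (σ ∈ blockSum f Y ∧ σ.card = k)) : pushF f k c σ = 0 := by
  unfold pushF
  refine sum_eq_zero fun i _ => ?_
  by_cases h' : ∃ τ : Finset (Fin m), τ.map (f i).toEmbedding = σ
  · obtain ⟨τ, rfl⟩ := h'
    rw [push_map, ext_of_not]
    rintro ⟨h1, h2⟩
    apply h
    refine ⟨mem_blockSum.mpr (Or.inr ⟨i, τ, h1, rfl⟩), ?_⟩
    rw [card_map, h2]
  · push Not at h'
    exact push_eq_zero _ _ h'

/-- the push forward of a family of chains of `Y` as a chain of the block sum -/
def pushC (k : ℕ) (c : ι → Chain Y k) : Chain (blockSum f Y) k :=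
  toChain _ k (pushF f k c)

theorem ext_pushC (k : ℕ) (c : ι → Chain Y k) :
    ext (blockSum f Y) k (pushC f k c) = pushF f k c :=
  ext_toChain (pushF_eq_zero f c)

include hY in
theorem boundary_pushC {k : ℕ} (hk : 1 ≤ k) (c : ι → Chain Y (k + 1)) :
    boundary (blockSum f Y) k (pushC f (k + 1) c) = pushC f k fun i => boundary Y k (c i) := by
  apply ext_injective (blockSum f Y) k
  rw [ext_boundary (isComplex_blockSum hY) hk, ext_pushC, ext_pushC]
  unfold pushF
  rw [D_sum]
  funext ρ
  refine sum_congr rfl fun i _ => ?_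
  rw [D_push, ext_boundary hY hk]

/-- any two blocks have fewer than `k` common vertices -/
def Apart (k : ℕ) : Prop :=
  ∀ i j, i ≠ j → ∀ σ τ : Finset (Fin m), σ.map (f i).toEmbedding = τ.map (f j).toEmbedding →
    σ.card < k

theorem pushF_map {k : ℕ} (hf : Apart f k) (c : ι → Chain Y k) (i : ι) (τ : Finset (Fin m))
    (hτ : τ.card = k) : pushF f k c (τ.map (f i).toEmbedding) = ext Y k (c i) τ := by
  unfold pushF
  rw [sum_eq_single i]
  · rw [push_map]
  · intro j _ hj
    refine push_eq_zero _ _ fun τ' h => ?_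
    have := hf i j hj.symm τ τ' h.symm
    omega
  · intro h
    exact absurd (mem_univ _) h

/-- the restriction of a chain of the block sum to a block -/
def pullC (k : ℕ) (c : Chain (blockSum f Y) k) (i : ι) : Chain Y k :=
  toChain Y k fun τ => ext (blockSum f Y) k c (τ.map (f i).toEmbedding)

theorem ext_pullC {k : ℕ} (hk : 2 ≤ k) (hf : Apart f k) (c : Chain (blockSum f Y) k) (i : ι) :
    ext Y k (pullC f k c i) = fun τ => ext (blockSum f Y) k c (τ.map (f i).toEmbedding) := by
  refine ext_toChain fun τ hτ => ?_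
  by_cases h : τ.map (f i).toEmbedding ∈ blockSum f Y ∧ (τ.map (f i).toEmbedding).card = k
  · exfalso
    obtain ⟨h1, h2⟩ := h
    rw [card_map] at h2
    rcases mem_blockSum.mp h1 with ⟨v, hv⟩ | ⟨j, τ', hτ', h3⟩
    · have h4 : ({v} : Finset (Fin n)).card = (τ.map (f i).toEmbedding).card := by rw [hv]
      rw [card_singleton, card_map] at h4
      omega
    · by_cases hij : i = j
      · subst hij
        rw [map_injective _ h3] at hτ'
        exact hτ ⟨hτ', h2⟩
      · have := hf i j hij τ τ' h3.symm
        omega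
  · exact ext_of_not c h

include hY in
theorem boundary_pullC {k : ℕ} (hk : 2 ≤ k) (hf : Apart f k)
    (c : Chain (blockSum f Y) (k + 1)) (i : ι) :
    boundary Y k (pullC f (k + 1) c i) = pullC f k (boundary (blockSum f Y) k c) i := by
  have hf' : Apart f (k + 1) := fun i j hij σ τ h => (hf i j hij σ τ h).trans (Nat.lt_succ_self k)
  apply ext_injective Y k
  rw [ext_boundary hY (by omega), ext_pullC f hk hf, ext_pullC f (by omega) hf',
    ext_boundary (isComplex_blockSum hY) (by omega)]
  funext ρ
  by_cases hρ : ρ.card = k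
  · unfold D
    symm
    have h1 : ∑ σ : Finset (Fin n), inc (ρ.map (f i).toEmbedding) σ *
        ext (blockSum f Y) (k + 1) c σ =
        ∑ σ ∈ univ.image (fun τ : Finset (Fin m) => τ.map (f i).toEmbedding),
          inc (ρ.map (f i).toEmbedding) σ * ext (blockSum f Y) (k + 1) c σ := by
      symm
      refine sum_subset (subset_univ _) fun σ _ hσ => ?_
      by_contra hc
      obtain ⟨v, hv, hv'⟩ := inc_ne_zero (left_ne_zero_of_mul hc)
      have hσX : σ ∈ blockSum f Y ∧ σ.card = k + 1 := by
        by_contra hn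
        exact right_ne_zero_of_mul hc (ext_of_not c hn)
      rcases mem_blockSum.mp hσX.1 with ⟨w, hw⟩ | ⟨j, τ', hτ', h3⟩
      · have := hσX.2
        rw [← hw, card_singleton] at this
        omega
      · by_cases hij : i = j
        · subst hij
          exact hσ (mem_image.mpr ⟨τ', mem_univ _, h3⟩)
        · have hsub : ρ.map (f i).toEmbedding ⊆ τ'.map (f j).toEmbedding := by
            rw [h3, hv']; exact subset_insert _ _
          obtain ⟨ρ', _, hρ'⟩ := subset_map_iff.mp hsub
          have := hf i j hij ρ ρ' hρ'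
          omega
    rw [h1, sum_image (fun a _ b _ h => map_injective _ h)]
    exact sum_congr rfl fun τ _ => by rw [inc_map]
  · have e1 : D (fun τ => ext (blockSum f Y) (k + 1) c (τ.map (f i).toEmbedding)) ρ = 0 := by
      unfold D
      refine sum_eq_zero fun τ _ => ?_
      by_contra hc
      have h1 := right_ne_zero_of_mul hc
      have h2 : (τ.map (f i).toEmbedding).card = k + 1 := by
        by_contra hn
        exact h1 (ext_of_not c fun h => hn h.2)
      rw [card_map] at h2
      exact left_ne_zero_of_mul hc (inc_eq_zero_of_card (by omega))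
    have e2 : D (ext (blockSum f Y) (k + 1) c) (ρ.map (f i).toEmbedding) = 0 := by
      unfold D
      refine sum_eq_zero fun σ _ => ?_
      by_contra hc
      have h2 : σ.card = k + 1 := by
        by_contra hn
        exact right_ne_zero_of_mul hc (ext_of_not c fun h => hn h.2)
      exact left_ne_zero_of_mul hc (inc_eq_zero_of_card (by rw [card_map]; omega))
    rw [e1, e2]

theorem pullC_pushC {k : ℕ} (hk : 2 ≤ k) (hf : Apart f k) (c : ι → Chain Y k) (i : ι) :
    pullC f k (pushC f k c) i = c i := by
  apply ext_injective Y k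
  rw [ext_pullC f hk hf, ext_pushC]
  funext τ
  by_cases hτ : τ.card = k
  · exact pushF_map f hf c i τ hτ
  · rw [pushF_eq_zero, ext_of_not]
    · exact fun h => hτ h.2
    · rintro ⟨-, h⟩
      rw [card_map] at h
      exact hτ h

include hY in
/-- **Block sums.** The torsion of the union of blocks is at least the product of the torsion
numbers of the blocks. -/
theorem tors_blockSum {k : ℕ} (hk : 1 ≤ k) (hf : Apart f (k + 1))
    (hfin : {h : Homology (blockSum f Y) k | IsOfFinAddOrder h}.Finite) :
    tors Y k ^ Fintype.card ι ≤ tors (blockSum f Y) k := by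
  classical
  let BY : AddSubgroup (Cycles Y k) := (boundary Y (k + 1)).range.addSubgroupOf (Cycles Y k)
  let qY : Cycles Y k →+ Homology Y k := QuotientAddGroup.mk' BY
  have hqY : Function.Surjective qY := QuotientAddGroup.mk'_surjective BY
  have hqYker : ∀ x, qY x = 0 ↔ x ∈ BY := fun x => QuotientAddGroup.eq_zero_iff x
  let BX : AddSubgroup (Cycles (blockSum f Y) k) :=
    (boundary (blockSum f Y) (k + 1)).range.addSubgroupOf (Cycles (blockSum f Y) k)
  let qX : Cycles (blockSum f Y) k →+ Homology (blockSum f Y) k := QuotientAddGroup.mk' BX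
  have hqXker : ∀ x, qX x = 0 ↔ x ∈ BX := fun x => QuotientAddGroup.eq_zero_iff x
  choose r hr using hqY
  -- the push forward of cycles
  have hcyc : ∀ z : ι → Cycles Y k, pushC f (k + 1) (fun i => (z i).1) ∈
      Cycles (blockSum f Y) k := by
    intro z
    change boundary (blockSum f Y) k _ = 0
    rw [boundary_pushC f hY hk]
    apply ext_injective (blockSum f Y) k
    rw [ext_pushC, ext_zero]
    unfold pushF
    funext σ
    refine sum_eq_zero fun i _ => ?_
    have : boundary Y k (z i).1 = 0 := (z i).2
    change push (f i) (Results.MP_9701dc_gt.TorsionBound.ext Y k (boundary Y k (z i).1)) σ = 0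
    rw [this, ext_zero]
    unfold push
    simp
  let F : (ι → Homology Y k) → Homology (blockSum f Y) k := fun h =>
    qX ⟨_, hcyc fun i => r (h i)⟩
  have hinj : Function.Injective F := by
    intro h h' hh
    funext i
    have h1 : qX (⟨_, hcyc fun i => r (h i)⟩ - ⟨_, hcyc fun i => r (h' i)⟩) = 0 := by
      rw [map_sub]
      exact sub_eq_zero.mpr hh
    rw [hqXker] at h1
    obtain ⟨c, hc⟩ := h1
    have h2 : boundary (blockSum f Y) (k + 1) c =
        pushC f (k + 1) (fun i => (r (h i)).1) - pushC f (k + 1) (fun i => (r (h' i)).1) := hc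
    have h3 : boundary Y (k + 1) (pullC f (k + 2) c i) = (r (h i)).1 - (r (h' i)).1 := by
      rw [boundary_pullC f hY (by omega) hf, h2]
      apply ext_injective Y (k + 1)
      rw [ext_pullC f (by omega) hf, ext_sub, ext_sub]
      funext τ
      have e1 := congrFun (congrArg (Results.MP_9701dc_gt.TorsionBound.ext Y (k + 1))
        (pullC_pushC f (by omega) hf (fun i => (r (h i)).1) i)) τ
      have e2 := congrFun (congrArg (Results.MP_9701dc_gt.TorsionBound.ext Y (k + 1))
        (pullC_pushC f (by omega) hf (fun i => (r (h' i)).1) i)) τ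
      rw [ext_pullC f (by omega) hf] at e1 e2
      simp only [Pi.sub_apply]
      rw [← e1, ← e2]
    have h4 : r (h i) - r (h' i) ∈ BY := ⟨pullC f (k + 2) c i, h3⟩
    have h5 := (hqYker _).mpr h4
    rw [map_sub, hr, hr] at h5
    exact sub_eq_zero.mp h5
  have htor : ∀ h : ι → Homology Y k, (∀ i, IsOfFinAddOrder (h i)) → IsOfFinAddOrder (F h) := by
    intro h hh
    have h1 : ∀ i, ∃ N : ℕ, 0 < N ∧ N • h i = 0 := fun i =>
      isOfFinAddOrder_iff_nsmul_eq_zero.mp (hh i)
    choose N hN0 hN using h1
    rw [isOfFinAddOrder_iff_nsmul_eq_zero]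
    refine ⟨∏ i, N i, prod_pos fun i _ => hN0 i, ?_⟩
    have h2 : ∀ i, ∃ c : Chain Y (k + 2), boundary Y (k + 1) c = (∏ j, N j) • (r (h i)).1 := by
      intro i
      have e1 : qY ((∏ j, N j) • r (h i)) = 0 := by
        rw [map_nsmul, hr]
        obtain ⟨t, ht⟩ : N i ∣ ∏ j, N j := dvd_prod_of_mem N (mem_univ i)
        rw [ht, mul_comm, mul_smul, hN, smul_zero]
      rw [hqYker] at e1
      obtain ⟨c, hc⟩ := e1
      exact ⟨c, hc⟩
    choose c hc using h2
    have h3 : (∏ j, N j) • F h = qX ((∏ j, N j) • ⟨_, hcyc fun i => r (h i)⟩) :=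
      (map_nsmul qX _ _).symm
    rw [h3, hqXker]
    refine ⟨pushC f (k + 2) c, ?_⟩
    rw [boundary_pushC f hY (by omega)]
    apply ext_injective (blockSum f Y) (k + 1)
    change _ = Results.MP_9701dc_gt.TorsionBound.ext (blockSum f Y) (k + 1)
      ((∏ j, N j) • pushC f (k + 1) fun i => (r (h i)).1)
    rw [ext_pushC, ext_nsmul, ext_pushC]
    funext σ
    unfold pushF
    rw [mul_sum]
    refine sum_congr rfl fun i _ => ?_
    change push (f i) (Results.MP_9701dc_gt.TorsionBound.ext Y (k + 1)
      (boundary Y (k + 1) (c i))) σ = ((∏ j, N j : ℕ) : ℤ) *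
      push (f i) (Results.MP_9701dc_gt.TorsionBound.ext Y (k + 1) (r (h i)).1) σ
    rw [hc i, ext_nsmul]
    unfold push
    rw [mul_sum]
    refine sum_congr rfl fun τ _ => ?_
    split_ifs <;> simp
  -- count
  have hinj' : Function.Injective fun h : ι → {x : Homology Y k // IsOfFinAddOrder x} =>
      (⟨F fun i => (h i).1, htor _ fun i => (h i).2⟩ :
        {x : Homology (blockSum f Y) k // IsOfFinAddOrder x}) := by
    intro h h' hh
    have := hinj (congrArg Subtype.val hh)
    funext i
    exact Subtype.ext (congrFun this i)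
  have hfin' : Finite {x : Homology (blockSum f Y) k // IsOfFinAddOrder x} := hfin
  have h1 := Nat.card_le_card_of_injective _ hinj'
  have h2 : Nat.card (ι → {x : Homology Y k // IsOfFinAddOrder x}) =
      tors Y k ^ Fintype.card ι := by
    rw [Nat.card_fun, Nat.card_eq_fintype_card (α := ι)]
    rfl
  rw [h2] at h1
  exact h1

end

end Pool.Agent.Lib.MP_9701dc_gt.GR
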