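import Mathlib

set_option autoImplicit false

/-!
# A Fekete type lemma for `t n / n^d`
-/

namespace Pool.Agent.Lib.MP_9701dc_gt.GR

open Filter Topology

theorem limit_of_pack {t : ℕ → ℝ} {d : ℕ} (hd : 1 ≤ d) (h0 : ∀ n, 0 ≤ t n) {C : ℝ}
    (hC : ∀ n, t n ≤ C * (n : ℝ) ^ d)
    (hpack : ∀ m q n : ℕ, 0 < q → m * q ≤ n → Nat.Coprime q (m - 1).factorial →
      (q : ℝ) ^ d * t m ≤ t n) :
    ∃ lam : ℝ, Tendsto (fun n : ℕ => t n / (n : ℝ) ^ d) atTop (𝓝 lam) ∧
      (∀ n, t n ≤ lam * (n : ℝ) ^ d) ∧ lam ≤ C := by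
  set S : Set ℝ := Set.range fun n : ℕ => t (n + 1) / ((n + 1 : ℕ) : ℝ) ^ d with hS
  have hpos : ∀ n : ℕ, (0 : ℝ) < ((n + 1 : ℕ) : ℝ) ^ d := fun n => by positivity
  have hbdd : BddAbove S := by
    refine ⟨C, ?_⟩
    rintro _ ⟨n, rfl⟩
    exact (div_le_iff₀ (hpos n)).mpr (hC _)
  have hne : S.Nonempty := ⟨_, ⟨0, rfl⟩⟩
  have hle : ∀ n : ℕ, t (n + 1) / ((n + 1 : ℕ) : ℝ) ^ d ≤ sSup S := fun n => le_csSup hbdd ⟨n, rfl⟩
  have hle' : ∀ n : ℕ, t n ≤ sSup S * (n : ℝ) ^ d := by
    intro n
    rcases n with _ | n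
    · have := hC 0
      rw [Nat.cast_zero, zero_pow (by omega)] at this ⊢
      rw [mul_zero] at this ⊢
      exact this
    · exact (div_le_iff₀ (hpos n)).mp (hle n)
  refine ⟨sSup S, ?_, hle', csSup_le hne ?_⟩
  · rw [tendsto_order]
    constructor
    · intro a ha
      obtain ⟨_, ⟨m, rfl⟩, hm⟩ := exists_lt_of_lt_csSup hne ha
      set M : ℕ := m + 1 with hM
      set F : ℕ := (M - 1).factorial with hF
      have hF1 : 1 ≤ F := Nat.factorial_pos _
      have hMpos : (0 : ℝ) < M := by rw [hM]; positivity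
      -- the comparison function
      have hlim : Tendsto (fun n : ℕ => (1 / (M : ℝ) - (F : ℝ) * (1 / (n : ℝ))) ^ d * t M) atTop
          (𝓝 ((1 / (M : ℝ) - (F : ℝ) * 0) ^ d * t M)) := by
        have h1 : Tendsto (fun n : ℕ => (1 : ℝ) / (n : ℝ)) atTop (𝓝 0) :=
          tendsto_one_div_atTop_nhds_zero_nat
        exact (((tendsto_const_nhds).sub (h1.const_mul _)).pow d).mul_const _
      have hval : (1 / (M : ℝ) - (F : ℝ) * 0) ^ d * t M = t M / (M : ℝ) ^ d := by
        rw [mul_zero, sub_zero, one_div, inv_pow]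
        field_simp
      rw [hval] at hlim
      have hev := (tendsto_order.mp hlim).1 a hm
      filter_upwards [hev, eventually_ge_atTop (M * (F + 1))] with n hn hn2
      refine hn.trans_le ?_
      -- choose q
      set s : ℕ := (n / M - 1) / F with hs
      set q : ℕ := 1 + F * s with hq
      have hnM : F + 1 ≤ n / M := by
        rw [Nat.le_div_iff_mul_le (by rw [hM]; omega)]
        calc (F + 1) * M = M * (F + 1) := mul_comm _ _
          _ ≤ n := hn2
      have hqle : q ≤ n / M := by
        have : F * s ≤ n / M - 1 := Nat.mul_div_le _ _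
        omega
      have hqM : M * q ≤ n := by
        calc M * q ≤ M * (n / M) := Nat.mul_le_mul_left _ hqle
          _ ≤ n := Nat.mul_div_le _ _
      have hq2 : n / M < q + F := by
        have : n / M - 1 < F * (s + 1) := Nat.lt_mul_div_succ _ hF1
        rw [mul_add, mul_one] at this
        omega
      have hcop : Nat.Coprime q (M - 1).factorial := by
        rw [← hF, hq]
        simp
      have h3 := hpack M q n (by omega) hqM hcop
      have hnpos : (0 : ℝ) < n := by
        have : 0 < n := by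
          have : 0 < M * (F + 1) := by rw [hM]; positivity
          omega
        exact_mod_cast this
      rw [le_div_iff₀ (by positivity)]
      refine le_trans ?_ h3
      have h4 : (1 / (M : ℝ) - (F : ℝ) * (1 / (n : ℝ))) ^ d * t M * (n : ℝ) ^ d =
          ((n : ℝ) / M - F) ^ d * t M := by
        have : ((n : ℝ) / M - F) = (1 / (M : ℝ) - (F : ℝ) * (1 / (n : ℝ))) * n := by
          field_simp
        rw [this, mul_pow]
        ring
      rw [h4]
      refine mul_le_mul_of_nonneg_right ?_ (h0 _)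
      have h5 : (n : ℝ) / M < q + F := by
        rw [div_lt_iff₀ hMpos]
        have h6 : n < (q + F) * M := by
          have := Nat.lt_mul_div_succ n (show 0 < M by rw [hM]; omega)
          calc n < M * (n / M + 1) := this
            _ ≤ M * (q + F) := Nat.mul_le_mul_left _ hq2
            _ = (q + F) * M := mul_comm _ _
        exact_mod_cast h6
      refine pow_le_pow_left₀ ?_ (by linarith) d
      rw [sub_nonneg, le_div_iff₀ hMpos]
      have h7 : F * M ≤ n := by
        calc F * M ≤ (F + 1) * M := Nat.mul_le_mul_right _ (by omega)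
          _ = M * (F + 1) := mul_comm _ _
          _ ≤ n := hn2
      exact_mod_cast h7
    · intro a ha
      filter_upwards [eventually_ge_atTop 1] with n hn
      have : (0 : ℝ) < (n : ℝ) ^ d := by
        have : (0 : ℝ) < n := by exact_mod_cast hn
        positivity
      exact ((div_le_iff₀ this).mpr (hle' n)).trans_lt ha
  · rintro _ ⟨n, rfl⟩
    exact (div_le_iff₀ (hpos n)).mpr (hC _)

end Pool.Agent.Lib.MP_9701dc_gt.GR
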