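import Pool.Agent.Lib.MP_9701dc_gt.GR.Pack
import Pool.Agent.Lib.MP_9701dc_gt.GR.Limit

set_option autoImplicit false
set_option linter.unusedSectionVars false

/-!
# The growth constant of the maximal torsion
-/

namespace Pool.Agent.Lib.MP_9701dc_gt.GR

open Finset Pool.Agent.Results.MP_9701dc_gt.TorsionBound Pool.Agent.Lib.MP_9701dc_gt
open Filter Topology

variable {n d : ℕ}

/-- `X` has dimension `d`: the largest face has `d + 1` vertices. -/
def IsDim (d : ℕ) (X : Finset (Finset (Fin n))) : Prop :=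
  (∃ σ ∈ X, σ.card = d + 1) ∧ ∀ σ ∈ X, σ.card ≤ d + 1

/-- The maximum of the number of elements of finite order of `H_{d-1}` over all `d`-dimensional
complexes on `n` vertices. -/
noncomputable def Tmax (n d : ℕ) : ℕ :=
  sSup {t : ℕ | ∃ X : Finset (Finset (Fin n)), IsComplex X ∧ IsDim d X ∧ t = tors X (d - 1)}

theorem finite_values (n d : ℕ) :
    {t : ℕ | ∃ X : Finset (Finset (Fin n)), IsComplex X ∧ IsDim d X ∧ t = tors X (d - 1)}.Finite := by
  refine (Set.finite_range fun X : Finset (Finset (Fin n)) => tors X (d - 1)).subset ?_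
  rintro _ ⟨X, _, _, rfl⟩
  exact ⟨X, rfl⟩

/-- the full skeleton -/
theorem exists_complex (hn : d + 1 ≤ n) : ∃ X : Finset (Finset (Fin n)), IsComplex X ∧ IsDim d X := by
  refine ⟨univ.filter fun σ => σ.Nonempty ∧ σ.card ≤ d + 1, ⟨?_, ?_, ?_⟩, ?_, ?_⟩
  · intro σ hσ
    exact (mem_filter.mp hσ).2.1
  · intro v
    refine mem_filter.mpr ⟨mem_univ _, singleton_nonempty v, ?_⟩
    rw [card_singleton]; omega
  · intro τ hτ σ hσ hne
    exact mem_filter.mpr ⟨mem_univ _, hne, (card_le_card hσ).trans (mem_filter.mp hτ).2.2⟩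
  · obtain ⟨σ, _, hσ⟩ := exists_subset_card_eq (s := (univ : Finset (Fin n)))
      (n := d + 1) (by rw [card_univ, Fintype.card_fin]; exact hn)
    refine ⟨σ, mem_filter.mpr ⟨mem_univ _, ?_, hσ.le⟩, hσ⟩
    rw [← card_pos]; omega
  · intro σ hσ
    exact (mem_filter.mp hσ).2.2

theorem Tmax_attained (hn : d + 1 ≤ n) : ∃ X : Finset (Finset (Fin n)), IsComplex X ∧
    IsDim d X ∧ Tmax n d = tors X (d - 1) := by
  obtain ⟨X, h1, h2⟩ := exists_complex hn
  have hne : {t : ℕ | ∃ X : Finset (Finset (Fin n)), IsComplex X ∧ IsDim d X ∧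
      t = tors X (d - 1)}.Nonempty := ⟨_, X, h1, h2, rfl⟩
  exact Nat.sSup_mem hne (finite_values n d).bddAbove

theorem le_Tmax {X : Finset (Finset (Fin n))} (h1 : IsComplex X) (h2 : IsDim d X) :
    tors X (d - 1) ≤ Tmax n d :=
  le_csSup (finite_values n d).bddAbove ⟨X, h1, h2, rfl⟩

theorem Tmax_eq_zero (hn : n < d + 1) : Tmax n d = 0 := by
  have : {t : ℕ | ∃ X : Finset (Finset (Fin n)), IsComplex X ∧ IsDim d X ∧
      t = tors X (d - 1)} = ∅ := by
    rw [Set.eq_empty_iff_forall_notMem]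
    rintro t ⟨X, _, ⟨⟨σ, _, hσ⟩, _⟩, _⟩
    have := card_le_univ σ
    rw [Fintype.card_fin] at this
    omega
  unfold Tmax
  rw [this]
  simp

theorem isDim_blockSum {m : ℕ} {ι : Type} [Fintype ι] [Nonempty ι] (hd : 1 ≤ d)
    (f : ι → Fin m ↪o Fin n) {Y : Finset (Finset (Fin m))} (hY : IsDim d Y) :
    IsDim d (blockSum f Y) := by
  classical
  obtain ⟨⟨σ, hσ, hσd⟩, h2⟩ := hY
  constructor
  · refine ⟨σ.map (f (Classical.arbitrary ι)).toEmbedding,
      mem_blockSum.mpr (Or.inr ⟨_, σ, hσ, rfl⟩), ?_⟩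
    rw [card_map, hσd]
  · intro τ hτ
    rcases mem_blockSum.mp hτ with ⟨v, rfl⟩ | ⟨i, τ', hτ', rfl⟩
    · rw [card_singleton]; omega
    · rw [card_map]
      exact h2 τ' hτ'

theorem log_natCast_nonneg (t : ℕ) : 0 ≤ Real.log (t : ℝ) := Real.log_natCast_nonneg t

/-- supermultiplicativity -/
theorem Tmax_pack (hd : 2 ≤ d) {m q n : ℕ} (hq0 : 0 < q) (h : m * q ≤ n)
    (hq : Nat.Coprime q (m - 1).factorial) :
    (q : ℝ) ^ d * Real.log (Tmax m d) ≤ Real.log (Tmax n d) := by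
  have : NeZero q := ⟨hq0.ne'⟩
  rcases lt_or_ge m (d + 1) with hm | hm
  · rw [Tmax_eq_zero hm, Nat.cast_zero, Real.log_zero, mul_zero]
    exact log_natCast_nonneg _
  · obtain ⟨Y, hY, hYd, hYT⟩ := Tmax_attained hm
    have h1 := tors_pack (n := n) h (by omega : 1 ≤ d - 1) hq hY
    have hexp : q ^ (d - 1 + 1) = q ^ d := by rw [show d - 1 + 1 = d by omega]
    rw [hexp] at h1
    have hdim := isDim_blockSum (by omega : 1 ≤ d)
      (fun a : Fin (d - 1 + 1) → ZMod q => blk (n := n) h a) hYd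
    have hcx := isComplex_blockSum (f := fun a : Fin (d - 1 + 1) → ZMod q => blk (n := n) h a) hY
    have h2 := h1.trans (le_Tmax hcx hdim)
    rw [← hYT] at h2
    rcases Nat.eq_zero_or_pos (Tmax m d) with h0 | h0
    · rw [h0, Nat.cast_zero, Real.log_zero, mul_zero]
      exact log_natCast_nonneg _
    · have h3 : ((Tmax m d : ℝ)) ^ (q ^ d) ≤ (Tmax n d : ℝ) := by exact_mod_cast h2
      have h4 : (0 : ℝ) < (Tmax m d : ℝ) := by exact_mod_cast h0
      have h5 := Real.log_le_log (by positivity) h3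
      rw [Real.log_pow] at h5
      push_cast at h5
      exact h5

/-- the upper bound, from the torsion bound -/
theorem log_Tmax_le (hd : 2 ≤ d) (n : ℕ) :
    Real.log (Tmax n d) ≤
      Real.log ((4 / 27 : ℝ) * (d + 1) ^ 5) / (10 * d.factorial) * (n : ℝ) ^ d := by
  have hbase : (1 : ℝ) ≤ (4 / 27 : ℝ) * (d + 1) ^ 5 := by
    have h2 : (2 : ℝ) ≤ d := by exact_mod_cast hd
    have h3 : (3 : ℝ) ^ 5 ≤ ((d : ℝ) + 1) ^ 5 := pow_le_pow_left₀ (by norm_num) (by linarith) 5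
    nlinarith
  have hlog : 0 ≤ Real.log ((4 / 27 : ℝ) * (d + 1) ^ 5) := Real.log_nonneg hbase
  rcases lt_or_ge n (d + 1) with hn | hn
  · rw [Tmax_eq_zero hn, Nat.cast_zero, Real.log_zero]
    positivity
  · obtain ⟨X, hX, _, hXT⟩ := Tmax_attained hn
    have h1 := (result n d hd X hX).2
    have h2 : (Tmax n d : ℝ) ^ 10 ≤ ((4 / 27 : ℝ) * (d + 1) ^ 5) ^ ((n - 1).choose d) := by
      rw [hXT]; exact h1
    rcases Nat.eq_zero_or_pos (Tmax n d) with h0 | h0
    · rw [h0, Nat.cast_zero, Real.log_zero]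
      positivity
    · have h4 : (0 : ℝ) < (Tmax n d : ℝ) := by exact_mod_cast h0
      have h5 := Real.log_le_log (by positivity) h2
      rw [Real.log_pow, Real.log_pow] at h5
      push_cast at h5
      have h6 : (((n - 1).choose d : ℕ) : ℝ) ≤ (n : ℝ) ^ d / d.factorial := by
        refine (Nat.choose_le_pow_div d (n - 1)).trans ?_
        refine div_le_div_of_nonneg_right ?_ (by positivity)
        refine pow_le_pow_left₀ (by positivity) ?_ d
        exact_mod_cast Nat.sub_le n 1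
      have h7 : 10 * Real.log (Tmax n d) ≤
          (n : ℝ) ^ d / d.factorial * Real.log ((4 / 27 : ℝ) * (d + 1) ^ 5) :=
        h5.trans (mul_le_mul_of_nonneg_right h6 hlog)
      have h8 : Real.log ((4 / 27 : ℝ) * (d + 1) ^ 5) / (10 * d.factorial) * (n : ℝ) ^ d =
          (n : ℝ) ^ d / d.factorial * Real.log ((4 / 27 : ℝ) * (d + 1) ^ 5) / 10 := by
        field_simp
      rw [h8]
      linarith

theorem growth (hd : 2 ≤ d) : ∃ lam : ℝ,
    Tendsto (fun n : ℕ => Real.log (Tmax n d) / (n : ℝ) ^ d) atTop (𝓝 lam) ∧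
    (∀ n : ℕ, Real.log (Tmax n d) ≤ lam * (n : ℝ) ^ d) ∧
    lam ≤ Real.log ((4 / 27 : ℝ) * (d + 1) ^ 5) / (10 * d.factorial) :=
  limit_of_pack (by omega) (fun n => log_natCast_nonneg _) (log_Tmax_le hd)
    fun _ _ _ h0 h1 h2 => Tmax_pack hd h0 h1 h2

end Pool.Agent.Lib.MP_9701dc_gt.GR
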