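import Pool.Agent.Lib.MP_9701dc_gt.GR.Block

set_option autoImplicit false
set_option linter.unusedSectionVars false

/-!
# Packing blocks by polynomials

The graphs of the polynomials of degree `< d` over `ℤ/q` on `0, …, m-1` form `q^d` blocks in
`[m] × ℤ/q`, any two of which meet in fewer than `d` points, if `q` is prime to `(m-1)!`.
-/

namespace Pool.Agent.Lib.MP_9701dc_gt.GR

open Finset Pool.Agent.Results.MP_9701dc_gt.TorsionBound Pool.Agent.Lib.MP_9701dc_gt

/-- value of a polynomial with coefficient vector `a` -/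
def pv {d q : ℕ} (a : Fin d → ZMod q) (j : ℕ) : ZMod q := ∑ l : Fin d, a l * (j : ZMod q) ^ (l : ℕ)

/-- the block of a polynomial -/
def blk {m q n d : ℕ} [NeZero q] (h : m * q ≤ n) (a : Fin d → ZMod q) : Fin m ↪o Fin n :=
  OrderEmbedding.ofStrictMono
    (fun j => ⟨(j : ℕ) * q + (pv a j).val, by
      have h1 : (pv a (j : ℕ)).val < q := ZMod.val_lt _
      have h2 : ((j : ℕ) + 1) * q ≤ m * q := Nat.mul_le_mul_right q j.2
      calc (j : ℕ) * q + (pv a j).val < ((j : ℕ) + 1) * q := by rw [add_mul, one_mul]; omega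
        _ ≤ n := h2.trans h⟩)
    (by
      intro i j hij
      have h1 : (pv a (i : ℕ)).val < q := ZMod.val_lt _
      have h2 : ((i : ℕ) + 1) * q ≤ (j : ℕ) * q := Nat.mul_le_mul_right q hij
      rw [Fin.lt_def]
      change (i : ℕ) * q + (pv a i).val < (j : ℕ) * q + (pv a j).val
      calc (i : ℕ) * q + (pv a i).val < ((i : ℕ) + 1) * q := by rw [add_mul, one_mul]; omega
        _ ≤ (j : ℕ) * q + (pv a j).val := h2.trans (Nat.le_add_right _ _))

theorem blk_val {m q n d : ℕ} [NeZero q] (h : m * q ≤ n) (a : Fin d → ZMod q) (j : Fin m) :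
    (blk h a j : ℕ) = (j : ℕ) * q + (pv a j).val := rfl

theorem blk_eq {m q n d : ℕ} [NeZero q] (h : m * q ≤ n) (a b : Fin d → ZMod q) (i j : Fin m)
    (hij : blk h a i = blk h b j) : i = j ∧ pv a i = pv b i := by
  have h1 := congrArg Fin.val hij
  rw [blk_val, blk_val] at h1
  have ha : (pv a (i : ℕ)).val < q := ZMod.val_lt _
  have hb : (pv b (j : ℕ)).val < q := ZMod.val_lt _
  have hq : 0 < q := Nat.pos_of_ne_zero (NeZero.ne q)
  have h2 : (i : ℕ) = j := by
    have e1 : ((i : ℕ) * q + (pv a i).val) / q = i := by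
      rw [mul_comm, Nat.mul_add_div hq, Nat.div_eq_of_lt ha, add_zero]
    have e2 : ((j : ℕ) * q + (pv b j).val) / q = j := by
      rw [mul_comm, Nat.mul_add_div hq, Nat.div_eq_of_lt hb, add_zero]
    rw [← e1, ← e2, h1]
  refine ⟨Fin.ext h2, ?_⟩
  rw [← h2] at h1
  have h3 : (pv a (i : ℕ)).val = (pv b (i : ℕ)).val := by omega
  exact ZMod.val_injective q h3

/-- interpolation: polynomials of degree `< d` which agree at `d` points are equal -/
theorem interp {d m q : ℕ} (hq : Nat.Coprime q (m - 1).factorial) (a b : Fin d → ZMod q)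
    (σ : Finset (Fin m)) (hσ : d ≤ σ.card) (h : ∀ i ∈ σ, pv a i = pv b i) : a = b := by
  obtain ⟨σ', hσ', hcard⟩ := exists_subset_card_eq hσ
  let e : Fin d ↪o Fin m := σ'.orderEmbOfFin hcard
  have hmem : ∀ j, e j ∈ σ := fun j => hσ' (orderEmbOfFin_mem σ' hcard j)
  let V : Matrix (Fin d) (Fin d) (ZMod q) := Matrix.vandermonde fun j => ((e j : ℕ) : ZMod q)
  have hunit : IsUnit V.det := by
    rw [Matrix.det_vandermonde]
    refine IsUnit.prod_univ_iff.mpr fun i => ?_
    rw [IsUnit.prod_iff]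
    intro j hj
    have hij : i < j := by simpa using hj
    have hlt : (e i : ℕ) < (e j : ℕ) := e.strictMono hij
    have hsub : ((e j : ℕ) : ZMod q) - ((e i : ℕ) : ZMod q) = (((e j : ℕ) - (e i : ℕ) : ℕ) : ZMod q) := by
      rw [Nat.cast_sub hlt.le]
    rw [hsub, ZMod.isUnit_iff_coprime]
    have h1 : (e j : ℕ) - (e i : ℕ) ∣ (m - 1).factorial := by
      refine Nat.dvd_factorial (by omega) ?_
      have := (e j).2
      omega
    exact (Nat.Coprime.coprime_dvd_right h1 hq).symm
  have hzero : V.mulVec (a - b) = 0 := by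
    funext j
    have h1 := h (e j) (hmem j)
    unfold pv at h1
    simp only [Matrix.mulVec, dotProduct, V, Matrix.vandermonde_apply, Pi.sub_apply, Pi.zero_apply]
    rw [← sub_eq_zero, ← sum_sub_distrib] at h1
    rw [← h1]
    exact sum_congr rfl fun l _ => by ring
  have hinv : V⁻¹.mulVec (V.mulVec (a - b)) = a - b := by
    rw [Matrix.mulVec_mulVec, Matrix.nonsing_inv_mul V hunit, Matrix.one_mulVec]
  rw [hzero, Matrix.mulVec_zero] at hinv
  exact (sub_eq_zero.mp hinv.symm)

theorem apart_blk {m q n d : ℕ} [NeZero q] (h : m * q ≤ n)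
    (hq : Nat.Coprime q (m - 1).factorial) :
    Apart (fun a : Fin d → ZMod q => blk (n := n) h a) d := by
  intro a b hab σ τ hστ
  by_contra hd
  push Not at hd
  apply hab
  refine interp hq a b σ hd fun i hi => ?_
  have h1 : blk h a i ∈ τ.map (blk (n := n) h b).toEmbedding := by
    rw [← hστ]
    exact mem_map_of_mem _ hi
  obtain ⟨j, _, hj⟩ := mem_map.mp h1
  exact (blk_eq h a b i j hj.symm).2

/-- **Packing.** -/
theorem tors_pack {m q n k : ℕ} [NeZero q] (h : m * q ≤ n) (hk : 1 ≤ k)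
    (hq : Nat.Coprime q (m - 1).factorial) {Y : Finset (Finset (Fin m))} (hY : IsComplex Y) :
    tors Y k ^ (q ^ (k + 1)) ≤
      tors (blockSum (fun a : Fin (k + 1) → ZMod q => blk (n := n) h a) Y) k := by
  have hX := isComplex_blockSum (f := fun a : Fin (k + 1) → ZMod q => blk (n := n) h a) hY
  have hfin := (result n (k + 1) (by omega) _ hX).1
  have h1 := tors_blockSum (fun a : Fin (k + 1) → ZMod q => blk (n := n) h a) hY hk
    (apart_blk h hq) hfin
  rwa [Fintype.card_fun, ZMod.card, Fintype.card_fin] at h1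

end Pool.Agent.Lib.MP_9701dc_gt.GR
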